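import Pool.Agent.Lib.Forcing.Forcing

/-!
The generic model theorem: `M[H]` is a transitive model of ZF that contains `M` and `H` and has
the same ordinals as `M`.
-/

universe u

set_option synthInstance.maxSize 8192

namespace Pool.Agent.Lib.Forcing

open ZFSet

variable {M : Set ZFSet.{u}} {P le H : ZFSet.{u}}

theorem exists_check (P : ZFSet.{u}) : ∃ c : ZFSet.{u} → ZFSet.{u},
    ∀ x z, z ∈ c x ↔ ∃ y ∈ x, ∃ p ∈ P, z = pair (c y) p := by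
  let c : ZFSet.{u} → ZFSet.{u} := mem_wf.fix fun x IH =>
    (range fun y : x => IH y.1 y.2).prod P
  refine ⟨c, fun x z => ?_⟩
  have : c x = (range fun y : x => c y.1).prod P := by
    simp only [c]; rw [WellFounded.fix_eq]
  rw [this, mem_prod]
  constructor
  · rintro ⟨a, ha, p, hp, rfl⟩
    obtain ⟨⟨y, hy⟩, rfl⟩ := mem_range.1 ha
    exact ⟨y, hy, p, hp, rfl⟩
  · rintro ⟨y, hy, p, hp, rfl⟩
    exact ⟨_, mem_range.2 ⟨⟨y, hy⟩, rfl⟩, p, hp, rfl⟩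

/-- The canonical name of a set. -/
noncomputable def check (P : ZFSet.{u}) : ZFSet.{u} → ZFSet.{u} := (exists_check P).choose

theorem mem_check {x z : ZFSet.{u}} :
    z ∈ check P x ↔ ∃ y ∈ x, ∃ p ∈ P, z = pair (check P y) p :=
  (exists_check P).choose_spec x z

theorem val_check (hH : H ⊆ P) {p0 : ZFSet.{u}} (hp0 : p0 ∈ H) (x : ZFSet.{u}) :
    val H (check P x) = x := by
  induction x using ZFSet.inductionOn with
  | h x ih =>
    ext z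
    rw [mem_val]
    constructor
    · rintro ⟨σ, p, -, h, rfl⟩
      obtain ⟨y, hy, q, -, h⟩ := mem_check.1 h
      obtain ⟨rfl, rfl⟩ := pair_inj.1 h
      rwa [ih y hy]
    · intro hz
      exact ⟨_, p0, hp0, mem_check.2 ⟨z, hz, p0, hH hp0, rfl⟩, ih z hz⟩

theorem rank_val_le (H τ : ZFSet.{u}) : (val H τ).rank ≤ τ.rank := by
  induction τ using (InvImage.wf rank Ordinal.lt_wf).induction with
  | h τ ih =>
    rw [rank_le_iff]
    intro y hy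
    obtain ⟨σ, p, -, h, rfl⟩ := mem_val.1 hy
    exact (ih σ (rank_lt_of_pair_mem h)).trans_lt (rank_lt_of_pair_mem h)

theorem mem_val_prod {B p0 x : ZFSet.{u}} (hp0 : p0 ∈ H) :
    x ∈ val H (B.prod {p0}) ↔ ∃ σ ∈ B, val H σ = x := by
  rw [mem_val]
  constructor
  · rintro ⟨σ, p, -, h, rfl⟩
    exact ⟨σ, (pair_mem_prod.1 h).1, rfl⟩
  · rintro ⟨σ, hσ, rfl⟩
    exact ⟨σ, p0, hp0, pair_mem_prod.2 ⟨hσ, mem_singleton.2 rfl⟩, rfl⟩

theorem dom_mem_trans {T τ σ p : ZFSet.{u}} (hT : T.IsTransitive) (hτ : τ ∈ T)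
    (h : pair σ p ∈ τ) : σ ∈ T :=
  hT _ (hT _ (hT _ hτ h) (mem_insert _ _)) (mem_singleton.2 rfl)

section
variable [hM : ZFm M]

theorem tm_check (hPM : P ∈ M) : Tm M (fun e => check P (e 0)) := by
  have := InM.mk hPM
  refine mem_recursion (check P) (fun x f z =>
    (∀ w ∈ z, ∃ y ∈ x, ∃ v, pair y v ∈ f ∧ ∃ p ∈ P, w = pair v p) ∧
    ∀ y ∈ x, ∀ v, pair y v ∈ f → ∀ p ∈ P, pair v p ∈ z) ?_
  intro x hx f hf Hf
  have := InM.mk hf
  constructor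
  · obtain ⟨b, hb, Hb⟩ := exists_image (check P) (fun w y => pair y w ∈ f) hx
      (fun y hy => snd_mem hf ((Hf y hy _).2 rfl)) (fun y hy w _ => Hf y hy w)
    convert prod_mem hb hPM using 1
    ext z
    rw [mem_check, mem_prod]
    constructor
    · rintro ⟨y, hy, h⟩; exact ⟨_, (Hb _).2 ⟨y, hy, rfl⟩, h⟩
    · rintro ⟨w, hw, h⟩
      obtain ⟨y, hy, rfl⟩ := (Hb _).1 hw
      exact ⟨y, hy, h⟩
  · intro z _
    constructor
    · rintro ⟨h1, h2⟩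
      ext w
      rw [mem_check]
      constructor
      · intro hw
        obtain ⟨y, hy, v, h3, h4⟩ := h1 w hw
        exact ⟨y, hy, (Hf y hy v).1 h3 ▸ h4⟩
      · rintro ⟨y, hy, p, hp, rfl⟩
        exact h2 y hy _ ((Hf y hy _).2 rfl) p hp
    · rintro rfl
      refine ⟨fun w hw => ?_, fun y hy v hv p hp =>
        mem_check.2 ⟨y, hy, p, hp, by rw [(Hf y hy v).1 hv]⟩⟩
      obtain ⟨y, hy, h⟩ := mem_check.1 hw
      exact ⟨y, hy, _, (Hf y hy _).2 rfl, h⟩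

theorem subset_genericExt (hP : IsForcing P le) (hPM : P ∈ M) (hH : IsGeneric M P le H) :
    M ⊆ genericExt M H := by
  obtain ⟨p0, hp0⟩ := hH.nonempty hP hPM
  exact fun x hx => ⟨_, (tm_check hPM).mem1 hx, val_check hH.subset hp0 x⟩

theorem ordinal_mem_of_genericExt {x : ZFSet.{u}} (hx : x ∈ genericExt M H)
    (ho : x.IsOrdinal) : x ∈ M := by
  obtain ⟨τ, hτ, rfl⟩ := hx
  have h1 : val H τ ⊆ rk τ := by
    rw [← ho.toZFSet_rank_eq]
    exact Ordinal.toZFSet_subset_toZFSet_iff.2 (rank_val_le H τ)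
  rcases (ho.subset_iff_eq_or_mem (isOrdinal_rk τ)).1 h1 with h | h
  · rw [h]; exact rk_mem hτ
  · exact mem_of_mem (rk_mem hτ) h

theorem genericExt_trans : ∀ x ∈ genericExt M H, ∀ y ∈ x, y ∈ genericExt M H := by
  rintro _ ⟨τ, hτ, rfl⟩ y hy
  obtain ⟨σ, p, -, h, rfl⟩ := mem_val.1 hy
  exact ⟨σ, fst_mem hτ h, rfl⟩

omit hM in
theorem exists_names {e : Env.{u}} (he : ∀ i, e i ∈ genericExt M H) :
    ∃ ε : Env.{u}, (∀ i, ε i ∈ M) ∧ e = fun i => val H (ε i) := by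
  choose ε h1 h2 using he
  exact ⟨ε, h1, funext fun i => (h2 i).symm⟩

theorem genericExt_sep (hP : IsForcing P le) (hPM : P ∈ M) (hle : le ∈ M)
    (hH : IsGeneric M P le H) (φ : Fml) (e : Env.{u}) (he : ∀ i, e i ∈ genericExt M H)
    (a : ZFSet.{u}) (ha : a ∈ genericExt M H) :
    a.sep (fun x => Sat (genericExt M H) φ (cons x e)) ∈ genericExt M H := by
  obtain ⟨ε, hε, rfl⟩ := exists_names he
  obtain ⟨τ, hτ, rfl⟩ := ha
  obtain ⟨T, hT, h1, h2⟩ := exists_trans hτ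
  have := InM.mk hτ
  have := InM.mk hle
  have h3 := df_frc_env1 hP hPM hle φ hε
  have h4 : Df M (fun e => (∃ r, pair (e 1) r ∈ τ ∧ pair (e 0) r ∈ le) ∧
      (e 0 ∈ P ∧ Frc M le φ (e 0) (cons (e 1) ε))) := @Df.and _ _ _ _ h3
  obtain ⟨S, hS, -, HS⟩ := exists_pairSep (fun σ q => (∃ r, pair σ r ∈ τ ∧ pair q r ∈ le) ∧
      (q ∈ P ∧ Frc M le φ q (cons σ ε))) (h := h4) hT hPM
  refine ⟨S, hS, ?_⟩
  ext x
  rw [mem_sep, mem_val]
  constructor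
  · rintro ⟨σ, q, hq, h, rfl⟩
    obtain ⟨h5, -, ⟨r, h6, h7⟩, -, h8⟩ := (HS σ q).1 h
    refine ⟨mem_val.2 ⟨σ, r, hH.upward _ _ hq h7, h6, rfl⟩, ?_⟩
    rw [← val_cons, truth hP hPM hle hH φ _ (cons_mem (mem_of_mem hT h5) hε)]
    exact ⟨q, hq, h8⟩
  · rintro ⟨hx, h⟩
    obtain ⟨σ, r, hr, h5, rfl⟩ := mem_val.1 hx
    rw [← val_cons, truth hP hPM hle hH φ _ (cons_mem (fst_mem hτ h5) hε)] at h
    obtain ⟨p, hp, h⟩ := h
    obtain ⟨q, hq, h6, h7⟩ := hH.directed p hp r hr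
    exact ⟨σ, q, hq, (HS σ q).2 ⟨dom_mem_trans h1 h2 h5, hH.subset hq, ⟨r, h5, h7⟩, hH.subset hq,
      Frc.mono hP φ h h6⟩, rfl⟩

theorem genericExt_coll (hpow : ∀ x ∈ M, ∃ y ∈ M, ∀ z ∈ M, z ⊆ x → z ∈ y)
    (hP : IsForcing P le) (hPM : P ∈ M) (hle : le ∈ M)
    (hH : IsGeneric M P le H) (φ : Fml) (e : Env.{u}) (he : ∀ i, e i ∈ genericExt M H)
    (a : ZFSet.{u}) (ha : a ∈ genericExt M H)
    (h : ∀ x ∈ a, ∃ y, y ∈ genericExt M H ∧ Sat (genericExt M H) φ (cons y (cons x e))) :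
    ∃ b ∈ genericExt M H, ∀ x ∈ a, ∃ y ∈ b, Sat (genericExt M H) φ (cons y (cons x e)) := by
  obtain ⟨p0, hp0⟩ := hH.nonempty hP hPM
  obtain ⟨ε, hε, rfl⟩ := exists_names he
  obtain ⟨τ, hτ, rfl⟩ := ha
  obtain ⟨T, hT, h1, h2⟩ := exists_trans hτ
  have h3 := (df_frc_env hP hPM hle φ hε).rename (fun i => if i = 0 then 0 else if i = 1 then 2 else 1)
  have h4 : Df M (fun e => ∃ σ q, e 1 = pair σ q ∧
      (q ∈ P ∧ Frc M le φ q (cons (e 0) (cons σ ε)))) := @Df.exEqPair _ _ _ _ _ h3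
  obtain ⟨B, hB, HB⟩ := collection hpow (fun ρ w => ∃ σ q, w = pair σ q ∧
      (q ∈ P ∧ Frc M le φ q (cons ρ (cons σ ε)))) (h := h4) (prod_mem hT hPM)
  refine ⟨_, ⟨_, prod_mem hB (singleton_mem (mem_of_mem hPM (hH.subset hp0))), rfl⟩, ?_⟩
  intro x hx
  obtain ⟨_, ⟨ρ, hρ, rfl⟩, h5⟩ := h x hx
  obtain ⟨σ, r, hr, h6, rfl⟩ := mem_val.1 hx
  have hσ := fst_mem hτ h6
  rw [← val_cons, ← val_cons, truth hP hPM hle hH φ _ (cons_mem hρ (cons_mem hσ hε))] at h5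
  obtain ⟨q, hq, h5⟩ := h5
  obtain ⟨ρ', hρ', σ', q', h7, -, h8⟩ := HB (pair σ q)
    (pair_mem_prod.2 ⟨dom_mem_trans h1 h2 h6, hH.subset hq⟩) ⟨ρ, hρ, σ, q, rfl, hH.subset hq, h5⟩
  obtain ⟨rfl, rfl⟩ := pair_inj.1 h7
  refine ⟨_, (mem_val_prod hp0).2 ⟨ρ', hρ', rfl⟩, ?_⟩
  rw [← val_cons, ← val_cons,
    truth hP hPM hle hH φ _ (cons_mem (mem_of_mem hB hρ') (cons_mem hσ hε))]
  exact ⟨q, hq, h8⟩

theorem genericExt_zfm (hpow : ∀ x ∈ M, ∃ y ∈ M, ∀ z ∈ M, z ⊆ x → z ∈ y)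
    (hP : IsForcing P le) (hPM : P ∈ M) (hle : le ∈ M) (hH : IsGeneric M P le H) :
    ZFm (genericExt M H) := by
  obtain ⟨p0, hp0⟩ := hH.nonempty hP hPM
  have hp0M := singleton_mem (mem_of_mem hPM (hH.subset hp0))
  refine
    { trans := genericExt_trans
      empty := subset_genericExt hP hPM hH Trans.empty
      pairing := ?_
      union := ?_
      infinity := subset_genericExt hP hPM hH omega_mem
      separation := genericExt_sep hP hPM hle hH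
      replacement := fun φ e he a ha h =>
        genericExt_coll hpow hP hPM hle hH φ e he a ha fun x hx => (h x hx).exists }
  · rintro _ ⟨σ, hσ, rfl⟩ _ ⟨τ, hτ, rfl⟩
    refine ⟨_, prod_mem (upair_mem hσ hτ) hp0M, ?_⟩
    ext x
    simp [mem_val_prod hp0, eq_comm]
  · rintro _ ⟨τ, hτ, rfl⟩
    obtain ⟨T, hT, h1, h2⟩ := exists_trans hτ
    have h3 := genericExt_sep hP hPM hle hH
      (.neg (.all (.neg (.and (.mem 0 2) (.mem 1 0))))) (fun _ => val H τ)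
      (fun _ => ⟨τ, hτ, rfl⟩) _ ⟨_, prod_mem hT hp0M, rfl⟩
    convert h3 using 1
    ext x
    simp only [mem_sep, mem_sUnion, Sat, mem_val_prod hp0]
    push Not
    constructor
    · rintro ⟨z, hz, hx⟩
      refine ⟨?_, z, genericExt_trans _ ⟨τ, hτ, rfl⟩ z hz, hz, hx⟩
      obtain ⟨σ, p, -, h4, rfl⟩ := mem_val.1 hz
      obtain ⟨ρ, q, -, h5, rfl⟩ := mem_val.1 hx
      exact ⟨ρ, dom_mem_trans h1 (dom_mem_trans h1 h2 h4) h5, rfl⟩
    · rintro ⟨-, z, -, hz, hx⟩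
      exact ⟨z, hz, hx⟩

theorem genericExt_pow (hpow : ∀ x ∈ M, ∃ y ∈ M, ∀ z ∈ M, z ⊆ x → z ∈ y)
    (hP : IsForcing P le) (hPM : P ∈ M) (hle : le ∈ M) (hH : IsGeneric M P le H) :
    ∀ x ∈ genericExt M H, ∃ y ∈ genericExt M H, ∀ z ∈ genericExt M H, z ⊆ x → z ∈ y := by
  obtain ⟨p0, hp0⟩ := hH.nonempty hP hPM
  have hp0M := singleton_mem (mem_of_mem hPM (hH.subset hp0))
  rintro _ ⟨τ, hτ, rfl⟩
  obtain ⟨T, hT, h1, h2⟩ := exists_trans hτ
  obtain ⟨B, hB, HB⟩ := hpow _ (prod_mem hT hPM)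
  refine ⟨_, ⟨_, prod_mem hB hp0M, rfl⟩, ?_⟩
  rintro _ ⟨σ, hσ, rfl⟩ h
  have h3 := df_frc_env1 hP hPM hle (.mem 0 1) (ε := fun _ => σ) (fun _ => hσ)
  obtain ⟨S, hS, h4, HS⟩ := exists_pairSep (fun ρ q => q ∈ P ∧ FMem le q ρ σ) (h := h3) hT hPM
  refine (mem_val_prod hp0).2 ⟨S, HB S hS h4, ?_⟩
  ext x
  rw [mem_val]
  constructor
  · rintro ⟨ρ, q, hq, h5, rfl⟩
    obtain ⟨h6, -, -, h7⟩ := (HS ρ q).1 h5
    exact (truth_mem hP hPM hle hH (mem_of_mem hT h6) hσ).2 ⟨q, hq, h7⟩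
  · intro hx
    obtain ⟨ρ, r, -, h5, rfl⟩ := mem_val.1 (h hx)
    obtain ⟨q, hq, h6⟩ := (truth_mem hP hPM hle hH (fst_mem hτ h5) hσ).1 hx
    exact ⟨ρ, q, hq, (HS ρ q).2 ⟨dom_mem_trans h1 h2 h5, hH.subset hq, hH.subset hq, h6⟩, rfl⟩

end

/-- The generic model theorem. -/
theorem IsZFModel.genericExt (hM : IsZFModel M) (hP : IsForcing P le) (hPM : P ∈ M)
    (hle : le ∈ M) (hH : IsGeneric M P le H) : IsZFModel (genericExt M H) :=
  have := hM.zfm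
  have h := genericExt_zfm hM.powerSet hP hPM hle hH
  { transitive := h.trans
    pairing := h.pairing
    union := h.union
    powerSet := genericExt_pow hM.powerSet hP hPM hle hH
    infinity := h.infinity
    separation := h.separation
    replacement := h.replacement }

end Pool.Agent.Lib.Forcing
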