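import Pool.Agent.Lib.Forcing.Model

/-!
Uniform definability: one formula defines the predicate in every nonempty transitive class.
Used to transfer first-order facts along elementary embeddings.
-/

universe u

namespace Pool.Agent.Lib.Forcing

open ZFSet

/-- One formula defines `R M` over every nonempty transitive class `M`. -/
class UDf (R : Set ZFSet.{u} → Env.{u} → Prop) : Prop where
  out : ∃ φ : Fml, ∀ M : Set ZFSet.{u}, Trans M → ∀ e : Env.{u}, (∀ i, e i ∈ M) →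
    (R M e ↔ Sat M φ e)

/-- The graph of `t` is uniformly definable. -/
class UTm (t : Env.{u} → ZFSet.{u}) : Prop where
  df : UDf (fun _ e => e 0 = t (fun i => e (i + 1)))

theorem UDf.congr {R S : Set ZFSet.{u} → Env.{u} → Prop} (h : UDf R)
    (hRS : ∀ M, Trans M → ∀ e : Env.{u}, (∀ i, e i ∈ M) → (R M e ↔ S M e)) : UDf S := by
  obtain ⟨φ, h⟩ := h.out
  exact ⟨φ, fun M hM e he => (hRS M hM e he).symm.trans (h M hM e he)⟩

theorem UDf.rename {R : Set ZFSet.{u} → Env.{u} → Prop} (h : UDf R) (f : ℕ → ℕ) :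
    UDf (fun M e => R M (fun i => e (f i))) := by
  obtain ⟨φ, h⟩ := h.out
  exact ⟨φ.rename f, fun M hM e he => by rw [sat_rename]; exact h M hM _ fun _ => he _⟩

theorem UDf.sat (φ : Fml) : UDf.{u} (fun M e => Sat M φ e) := ⟨φ, fun _ _ _ _ => Iff.rfl⟩

instance UDf.not {R : Set ZFSet.{u} → Env.{u} → Prop} [h : UDf R] : UDf (fun M e => ¬ R M e) := by
  obtain ⟨φ, h⟩ := h.out
  exact ⟨.neg φ, fun M hM e he => not_congr (h M hM e he)⟩

instance UDf.and {R S : Set ZFSet.{u} → Env.{u} → Prop} [h : UDf R] [k : UDf S] :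
    UDf (fun M e => R M e ∧ S M e) := by
  obtain ⟨φ, h⟩ := h.out
  obtain ⟨ψ, k⟩ := k.out
  exact ⟨.and φ ψ, fun M hM e he => and_congr (h M hM e he) (k M hM e he)⟩

theorem UDf.all' {R : Set ZFSet.{u} → Env.{u} → Prop} (h : UDf R) :
    UDf (fun M e => ∀ x ∈ M, R M (cons x e)) := by
  obtain ⟨φ, h⟩ := h.out
  exact ⟨.all φ, fun M hM e he => forall_congr' fun x => forall_congr' fun hx =>
    h M hM _ (cons_mem hx he)⟩

instance UDf.allM {R : Set ZFSet.{u} → ZFSet.{u} → Env.{u} → Prop}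
    [h : UDf (fun M e => R M (e 0) (fun i => e (i + 1)))] : UDf (fun M e => ∀ x ∈ M, R M x e) :=
  h.all'

instance UDf.imp {R S : Set ZFSet.{u} → Env.{u} → Prop} [UDf R] [UDf S] :
    UDf (fun M e => R M e → S M e) :=
  (inferInstance : UDf (fun M e => ¬ (R M e ∧ ¬ S M e))).congr fun _ _ _ _ => by tauto

instance UDf.or {R S : Set ZFSet.{u} → Env.{u} → Prop} [UDf R] [UDf S] :
    UDf (fun M e => R M e ∨ S M e) :=
  (inferInstance : UDf (fun M e => ¬ R M e → S M e)).congr fun _ _ _ _ => by tauto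

instance UDf.iff {R S : Set ZFSet.{u} → Env.{u} → Prop} [UDf R] [UDf S] :
    UDf (fun M e => R M e ↔ S M e) :=
  (inferInstance : UDf (fun M e => (R M e → S M e) ∧ (S M e → R M e))).congr
    fun _ _ _ _ => by tauto

instance UDf.exM {R : Set ZFSet.{u} → ZFSet.{u} → Env.{u} → Prop}
    [UDf (fun M e => R M (e 0) (fun i => e (i + 1)))] : UDf (fun M e => ∃ x ∈ M, R M x e) :=
  (inferInstance : UDf (fun M e => ¬ ∀ x ∈ M, ¬ R M x e)).congr fun _ _ _ _ => by push Not; rfl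

instance UTm.var (i : ℕ) : UTm.{u} (fun e => e i) := ⟨UDf.sat (.eq 0 (i + 1))⟩

theorem UTm.rename {t : Env.{u} → ZFSet.{u}} (h : UTm t) (f : ℕ → ℕ) :
    UTm (fun e => t (fun i => e (f i))) := ⟨h.df.rename (up f)⟩

theorem UTm.shift {t : Env.{u} → ZFSet.{u}} (h : UTm t) : UTm (fun e => t (fun i => e (i + 1))) :=
  h.rename (· + 1)

instance UDf.eqVar {t : Env.{u} → ZFSet.{u}} [h : UTm t] (i : ℕ) :
    UDf (fun _ e => e i = t e) :=
  h.df.rename (fun k => match k with | 0 => i | k + 1 => k)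

instance UDf.memVar {t : Env.{u} → ZFSet.{u}} [h : UTm t] (i : ℕ) :
    UDf (fun _ e => t e ∈ e i) := by
  have h1 : UDf (fun _ e => e 0 = t (fun i => e (i + 1)) ∧ e 0 ∈ e (i + 1)) :=
    @UDf.and _ _ h.df (UDf.sat (.mem 0 (i + 1)))
  have h2 : UDf (fun M e => ∃ x ∈ M, x = t e ∧ x ∈ e i) := @UDf.exM _ h1
  refine h2.congr fun M hM e he => ⟨?_, fun h => ⟨_, mem_of_mem (he i) h, rfl, h⟩⟩
  rintro ⟨x, -, rfl, h⟩; exact h

instance UDf.allIn (i : ℕ) {R : Set ZFSet.{u} → ZFSet.{u} → Env.{u} → Prop}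
    [UDf (fun M e => R M (e 0) (fun i => e (i + 1)))] : UDf (fun M e => ∀ x ∈ e i, R M x e) :=
  (inferInstance : UDf (fun M e => ∀ x ∈ M, x ∈ e i → R M x e)).congr fun _ _ _ he =>
    ⟨fun H x hx => H x (mem_of_mem (he i) hx) hx, fun H x _ hx => H x hx⟩

instance UDf.exIn (i : ℕ) {R : Set ZFSet.{u} → ZFSet.{u} → Env.{u} → Prop}
    [UDf (fun M e => R M (e 0) (fun i => e (i + 1)))] : UDf (fun M e => ∃ x ∈ e i, R M x e) :=
  (inferInstance : UDf (fun M e => ¬ ∀ x ∈ e i, ¬ R M x e)).congr fun _ _ _ _ => by push Not; rfl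

instance UDf.subset (i j : ℕ) : UDf.{u} (fun _ e => e i ⊆ e j) :=
  (inferInstance : UDf (fun _ e => ∀ x ∈ e i, x ∈ e j)).congr fun _ _ _ _ => Iff.rfl

instance UDf.ne {t : Env.{u} → ZFSet.{u}} [UTm t] (i : ℕ) : UDf (fun _ e => e i ≠ t e) :=
  (inferInstance : UDf (fun _ e => ¬ e i = t e))

instance UDf.isTransitive (i : ℕ) : UDf.{u} (fun _ e => (e i).IsTransitive) :=
  (inferInstance : UDf (fun _ e => ∀ x ∈ e i, x ⊆ e i)).congr fun _ _ _ _ => Iff.rfl

instance UDf.isOrdinal (i : ℕ) : UDf.{u} (fun _ e => (e i).IsOrdinal) :=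
  (inferInstance : UDf (fun _ e => (e i).IsTransitive ∧ ∀ x ∈ e i, x.IsTransitive)).congr
    fun _ _ _ _ => isOrdinal_iff_forall_mem_isTransitive.symm

instance UTm.empty : UTm.{u} (fun _ => ∅) :=
  ⟨(inferInstance : UDf (fun _ e => ∀ x ∈ e 0, x ≠ x)).congr fun _ _ e _ => by
    rw [ZFSet.eq_empty]; simp⟩

instance UTm.singleton {s : Env.{u} → ZFSet.{u}} [hs : UTm s] :
    UTm (fun e => ({s e} : ZFSet.{u})) :=
  have := hs.shift.shift
  ⟨(inferInstance : UDf (fun _ e => ∃ a ∈ e 0, a = s (fun i => e (i + 1)) ∧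
      ∀ z ∈ e 0, z = a)).congr fun _ _ e _ => by
    constructor
    · rintro ⟨a, ha, rfl, h⟩
      ext z
      rw [mem_singleton]
      exact ⟨h z, fun h => h ▸ ha⟩
    · intro h; rw [h]; simp⟩

instance UTm.upair {s t : Env.{u} → ZFSet.{u}} [hs : UTm s] [ht : UTm t] :
    UTm (fun e => ({s e, t e} : ZFSet.{u})) :=
  have := hs.shift.shift.shift
  have := ht.shift.shift.shift
  ⟨(inferInstance : UDf (fun _ e => ∃ a ∈ e 0, ∃ b ∈ e 0, a = s (fun i => e (i + 1)) ∧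
      b = t (fun i => e (i + 1)) ∧ ∀ z ∈ e 0, z = a ∨ z = b)).congr fun _ _ e _ => by
    constructor
    · rintro ⟨a, ha, b, hb, rfl, rfl, h⟩
      ext z
      rw [mem_pair]
      exact ⟨h z, fun h => h.elim (fun h => h ▸ ha) (fun h => h ▸ hb)⟩
    · intro h; rw [h]; simp⟩

instance UTm.pair {s t : Env.{u} → ZFSet.{u}} [UTm s] [UTm t] :
    UTm (fun e => pair (s e) (t e)) :=
  (inferInstance : UTm (fun e => ({{s e}, {s e, t e}} : ZFSet.{u})))

instance UTm.insertVar {s : Env.{u} → ZFSet.{u}} [hs : UTm s] (i : ℕ) :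
    UTm (fun e => (insert (s e) (e i) : ZFSet.{u})) :=
  have := hs.shift.shift
  ⟨(inferInstance : UDf (fun _ e => ∃ a ∈ e 0, a = s (fun i => e (i + 1)) ∧ e (i + 1) ⊆ e 0 ∧
      ∀ z ∈ e 0, z = a ∨ z ∈ e (i + 1))).congr fun _ _ e _ => by
    constructor
    · rintro ⟨a, ha, rfl, h1, h2⟩
      ext z
      rw [mem_insert_iff]
      exact ⟨h2 z, fun h => h.elim (fun h => h ▸ ha) (fun h => h1 h)⟩
    · intro h; rw [h]
      exact ⟨_, mem_insert _ _, rfl, fun z hz => mem_insert_of_mem _ hz,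
        fun z hz => mem_insert_iff.1 hz⟩⟩

instance UDf.allPair (i : ℕ) {R : Set ZFSet.{u} → ZFSet.{u} → ZFSet.{u} → Env.{u} → Prop}
    [UDf (fun M e => R M (e 1) (e 0) (fun i => e (i + 1 + 1)))] :
    UDf (fun M e => ∀ a b, pair a b ∈ e i → R M a b e) :=
  (inferInstance : UDf (fun M e => ∀ a ∈ M, ∀ b ∈ M, pair a b ∈ e i → R M a b e)).congr
    fun _ _ _ he => ⟨fun H a b h => H a (fst_mem (he i) h) b (snd_mem (he i) h) h,
      fun H a _ b _ h => H a b h⟩

instance UDf.exPair (i : ℕ) {R : Set ZFSet.{u} → ZFSet.{u} → ZFSet.{u} → Env.{u} → Prop}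
    [UDf (fun M e => R M (e 1) (e 0) (fun i => e (i + 1 + 1)))] :
    UDf (fun M e => ∃ a b, pair a b ∈ e i ∧ R M a b e) :=
  (inferInstance : UDf (fun M e => ¬ ∀ a b, pair a b ∈ e i → ¬ R M a b e)).congr
    fun _ _ _ _ => by push Not; rfl

instance UDf.allSnd (i : ℕ) {s : Env.{u} → ZFSet.{u}} [hs : UTm s]
    {R : Set ZFSet.{u} → ZFSet.{u} → Env.{u} → Prop}
    [UDf (fun M e => R M (e 0) (fun i => e (i + 1)))] :
    UDf (fun M e => ∀ b, pair (s e) b ∈ e i → R M b e) :=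
  have := hs.shift
  (inferInstance : UDf (fun M e => ∀ b ∈ M, pair (s e) b ∈ e i → R M b e)).congr
    fun _ _ _ he => ⟨fun H b h => H b (snd_mem (he i) h) h, fun H b _ h => H b h⟩

instance UDf.exSnd (i : ℕ) {s : Env.{u} → ZFSet.{u}} [hs : UTm s]
    {R : Set ZFSet.{u} → ZFSet.{u} → Env.{u} → Prop}
    [UDf (fun M e => R M (e 0) (fun i => e (i + 1)))] :
    UDf (fun M e => ∃ b, pair (s e) b ∈ e i ∧ R M b e) :=
  (inferInstance : UDf (fun M e => ¬ ∀ b, pair (s e) b ∈ e i → ¬ R M b e)).congr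
    fun _ _ _ _ => by push Not; rfl

instance UDf.allFst (i : ℕ) {s : Env.{u} → ZFSet.{u}} [hs : UTm s]
    {R : Set ZFSet.{u} → ZFSet.{u} → Env.{u} → Prop}
    [UDf (fun M e => R M (e 0) (fun i => e (i + 1)))] :
    UDf (fun M e => ∀ a, pair a (s e) ∈ e i → R M a e) :=
  have := hs.shift
  (inferInstance : UDf (fun M e => ∀ a ∈ M, pair a (s e) ∈ e i → R M a e)).congr
    fun _ _ _ he => ⟨fun H a h => H a (fst_mem (he i) h) h, fun H a _ h => H a h⟩

instance UDf.exFst (i : ℕ) {s : Env.{u} → ZFSet.{u}} [hs : UTm s]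
    {R : Set ZFSet.{u} → ZFSet.{u} → Env.{u} → Prop}
    [UDf (fun M e => R M (e 0) (fun i => e (i + 1)))] :
    UDf (fun M e => ∃ a, pair a (s e) ∈ e i ∧ R M a e) :=
  (inferInstance : UDf (fun M e => ¬ ∀ a, pair a (s e) ∈ e i → ¬ R M a e)).congr
    fun _ _ _ _ => by push Not; rfl

/-- `w` is the set of natural numbers, said with bounded quantifiers. -/
def IsOmega (w : ZFSet.{u}) : Prop :=
  ∅ ∈ w ∧ (∀ y ∈ w, insert y y ∈ w) ∧ ∀ y ∈ w, y = ∅ ∨ ∃ z ∈ w, y = insert z z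

instance UDf.isOmega (i : ℕ) : UDf.{u} (fun _ e => IsOmega (e i)) := by
  unfold IsOmega; infer_instance

theorem omega_induction {p : ZFSet.{u} → Prop} (h0 : p ∅) (hs : ∀ x, p x → p (insert x x)) :
    ∀ x ∈ omega, p x := by
  intro x hx
  induction x using Quotient.inductionOn with
  | h x =>
    obtain ⟨⟨n⟩, h⟩ := hx
    have h1 : ∀ n : ℕ, p (ZFSet.mk (PSet.ofNat n)) := by
      intro n
      induction n with
      | zero => exact h0
      | succ n ih => exact hs _ ih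
    have h2 : ZFSet.mk x = ZFSet.mk (PSet.ofNat n) := ZFSet.sound h
    rw [mk_eq, h2]
    exact h1 n

theorem isOmega_iff {w : ZFSet.{u}} : IsOmega w ↔ w = omega := by
  constructor
  · rintro ⟨h1, h2, h3⟩
    ext y
    constructor
    · induction y using ZFSet.inductionOn with
      | h y ih =>
        intro hy
        rcases h3 y hy with rfl | ⟨z, hz, rfl⟩
        · exact omega_zero
        · exact omega_succ (ih z (mem_insert _ _) hz)
    · exact omega_induction (p := fun y => y ∈ w) h1 h2 y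
  · rintro rfl
    refine ⟨omega_zero, fun _ => omega_succ, fun y hy => ?_⟩
    have := omega_induction (p := fun y => y ∈ omega ∧ (y = ∅ ∨ ∃ z ∈ omega, y = insert z z))
      ⟨omega_zero, Or.inl rfl⟩ (fun x hx => ⟨omega_succ hx.1, Or.inr ⟨x, hx.1, rfl⟩⟩) y hy
    exact this.2

end Pool.Agent.Lib.Forcing
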