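import Mathlib.Data.Set.Countable
import Mathlib.Logic.Equiv.List
import Pool.Agent.Lib.Forcing.Uniform
import Pool.Agent.Lib.Forcing.Generic

/-!
A countable transitive model of ZF that embeds elementarily into the universe of sets, and
existence of generic filters over countable models.
-/

universe u

set_option synthInstance.maxSize 8192

namespace Pool.Agent.Lib.Forcing

open ZFSet

def Fml.code : Fml → ℕ
  | .mem i j => Nat.pair 0 (Nat.pair i j)
  | .eq i j => Nat.pair 1 (Nat.pair i j)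
  | .neg φ => Nat.pair 2 φ.code
  | .and φ ψ => Nat.pair 3 (Nat.pair φ.code ψ.code)
  | .all φ => Nat.pair 4 φ.code

theorem Fml.code_injective : Function.Injective Fml.code := by
  intro φ
  induction φ with
  | mem i j => intro ψ h; cases ψ <;> simp_all [Fml.code]
  | eq i j => intro ψ h; cases ψ <;> simp_all [Fml.code]
  | neg φ ih =>
    intro ψ h
    cases ψ <;> simp [Fml.code] at h
    rw [ih h]
  | and φ φ' ih ih' =>
    intro ψ h
    cases ψ <;> simp [Fml.code] at h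
    rw [ih h.1, ih' h.2]
  | all φ ih =>
    intro ψ h
    cases ψ <;> simp [Fml.code] at h
    rw [ih h]

instance : Countable Fml := Fml.code_injective.countable

theorem sat_finite (M : Set ZFSet.{u}) (φ : Fml) : ∃ n : ℕ, ∀ e e' : Env.{u},
    (∀ i < n, e i = e' i) → (Sat M φ e ↔ Sat M φ e') := by
  induction φ with
  | mem i j =>
    exact ⟨i + j + 1, fun e e' h => by simp only [Sat]; rw [h i (by omega), h j (by omega)]⟩
  | eq i j =>
    exact ⟨i + j + 1, fun e e' h => by simp only [Sat]; rw [h i (by omega), h j (by omega)]⟩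
  | neg φ ih => exact ih.imp fun n h e e' he => not_congr (h e e' he)
  | and φ ψ ih1 ih2 =>
    obtain ⟨n, h1⟩ := ih1
    obtain ⟨m, h2⟩ := ih2
    exact ⟨n + m, fun e e' h => and_congr (h1 e e' fun i _ => h i (by omega))
      (h2 e e' fun i _ => h i (by omega))⟩
  | all φ ih =>
    obtain ⟨n, h1⟩ := ih
    refine ⟨n, fun e e' h => forall_congr' fun x => forall_congr' fun _ => h1 _ _ ?_⟩
    rintro (_ | i) hi
    · rfl
    · exact h i (by omega)

/-- A countable elementary submodel of the universe. -/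
theorem exists_countable_elementary : ∃ X : Set ZFSet.{u}, X.Countable ∧ ∅ ∈ X ∧
    ∀ (φ : Fml) (e : Env.{u}), (∀ i, e i ∈ X) → (Sat X φ e ↔ Sat Set.univ φ e) := by
  classical
  let sk : Fml → List ZFSet.{u} → ZFSet.{u} := fun φ l =>
    if h : ∃ x, ¬ Sat Set.univ φ (cons x fun i => l.getD i ∅) then h.choose else ∅
  let S : ℕ → Set ZFSet.{u} := fun k => Nat.rec {∅}
    (fun _ Y => Y ∪ Set.range fun t : Fml × List Y => sk t.1 (t.2.map Subtype.val)) k
  have hc : ∀ k, (S k).Countable := by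
    intro k
    induction k with
    | zero => exact Set.countable_singleton _
    | succ k ih =>
      have := ih.to_subtype
      exact ih.union (Set.countable_range _)
  have hm : Monotone S := monotone_nat_of_le_succ fun k => Set.subset_union_left
  refine ⟨⋃ k, S k, Set.countable_iUnion hc, Set.mem_iUnion.2 ⟨0, rfl⟩, fun φ => ?_⟩
  induction φ with
  | mem i j => exact fun _ _ => Iff.rfl
  | eq i j => exact fun _ _ => Iff.rfl
  | neg φ ih => exact fun e he => not_congr (ih e he)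
  | and φ ψ ih1 ih2 => exact fun e he => and_congr (ih1 e he) (ih2 e he)
  | all φ ih =>
    intro e he
    refine ⟨fun h => ?_, fun h x hx => (ih _ (cons_mem hx he)).2 (h x trivial)⟩
    by_contra hcon
    simp only [Sat, Set.mem_univ, forall_const, not_forall] at hcon
    obtain ⟨n, hn⟩ := sat_finite Set.univ φ
    obtain ⟨k, hk⟩ : ∃ k, ∀ i < n, e i ∈ S k := by
      clear hn
      induction n with
      | zero => exact ⟨0, fun _ h => absurd h (Nat.not_lt_zero _)⟩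
      | succ n ihn =>
        obtain ⟨k, hk⟩ := ihn
        obtain ⟨k', hk'⟩ := Set.mem_iUnion.1 (he n)
        refine ⟨max k k', fun i hi => ?_⟩
        rcases Nat.lt_succ_iff_lt_or_eq.1 hi with hi | rfl
        exacts [hm (le_max_left _ _) (hk i hi), hm (le_max_right _ _) hk']
    let l : List ↥(S k) := List.ofFn fun i : Fin n => (⟨e i, hk i i.2⟩ : ↥(S k))
    have hl : ∀ x, Sat Set.univ φ (cons x fun i => (l.map Subtype.val).getD i ∅) ↔
        Sat Set.univ φ (cons x e) := by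
      intro x
      refine hn _ _ ?_
      rintro (_ | i) hi
      · rfl
      · have : i < n := by omega
        simp [l, this]
    have hex : ∃ x, ¬ Sat Set.univ φ (cons x fun i => (l.map Subtype.val).getD i ∅) :=
      hcon.imp fun x hx => mt (hl x).1 hx
    have h1 : sk φ (l.map Subtype.val) ∈ ⋃ k, S k :=
      Set.mem_iUnion.2 ⟨k + 1, Or.inr ⟨(φ, l), rfl⟩⟩
    have h2 := (ih _ (cons_mem h1 he)).1 (h _ h1)
    rw [← hl] at h2
    simp only [sk, dif_pos hex] at h2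
    exact hex.choose_spec h2

theorem exists_collapse (X : Set ZFSet.{u}) : ∃ π : ZFSet.{u} → ZFSet.{u},
    ∀ x z, z ∈ π x ↔ ∃ y ∈ x, y ∈ X ∧ π y = z := by
  let π : ZFSet.{u} → ZFSet.{u} := mem_wf.fix fun x IH =>
    range fun y : x.sep (· ∈ X) => IH y.1 (mem_sep.1 y.2).1
  refine ⟨π, fun x z => ?_⟩
  have : π x = range fun y : x.sep (· ∈ X) => π y.1 := by
    simp only [π]; rw [WellFounded.fix_eq]
  rw [this, mem_range]
  constructor
  · rintro ⟨⟨y, hy⟩, rfl⟩
    exact ⟨y, (mem_sep.1 hy).1, (mem_sep.1 hy).2, rfl⟩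
  · rintro ⟨y, h1, h2, rfl⟩
    exact ⟨⟨y, mem_sep.2 ⟨h1, h2⟩⟩, rfl⟩

instance : Trans (Set.univ : Set ZFSet.{u}) := ⟨fun _ _ _ _ => trivial, trivial⟩

/-- `M` is a nonempty transitive class and `j` embeds it elementarily into the universe. -/
structure IsElem (M : Set ZFSet.{u}) (j : ZFSet.{u} → ZFSet.{u}) : Prop where
  trans : Trans M
  elem : ∀ (φ : Fml) (e : Env.{u}), (∀ i, e i ∈ M) →
    (Sat M φ e ↔ Sat Set.univ φ (fun i => j (e i)))

theorem exists_countable_isElem : ∃ (M : Set ZFSet.{u}) (j : ZFSet.{u} → ZFSet.{u}),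
    M.Countable ∧ IsElem M j := by
  classical
  obtain ⟨X, hc, h0, hX⟩ := exists_countable_elementary.{u}
  obtain ⟨π, hπ⟩ := exists_collapse X
  have hext : ∀ x ∈ X, ∀ y ∈ X, (∀ z ∈ X, z ∈ x → z ∈ y) → x ⊆ y := by
    intro x hx y hy h
    have := (hX (.all (.neg (.and (.mem 0 1) (.neg (.mem 0 2))))) (cons x (cons y fun _ => ∅))
      (cons_mem hx (cons_mem hy fun _ => h0))).1 (fun z hz h' => h'.2 (h z hz h'.1))
    intro z hz
    by_contra h'
    exact this z trivial ⟨hz, h'⟩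
  have hinj : ∀ x, x ∈ X → ∀ y ∈ X, π x = π y → x = y := by
    intro x
    induction x using ZFSet.inductionOn with
    | h x ih =>
      intro hx y hy h
      apply subset_antisymm
      · refine hext x hx y hy fun z hz hzx => ?_
        obtain ⟨w, h1, h2, h3⟩ := (hπ y _).1 (h ▸ (hπ x _).2 ⟨z, hzx, hz, rfl⟩)
        rwa [ih z hzx hz w h2 h3.symm]
      · refine hext y hy x hx fun z hz hzy => ?_
        obtain ⟨w, h1, h2, h3⟩ := (hπ x _).1 (h ▸ (hπ y _).2 ⟨z, hzy, hz, rfl⟩)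
        rwa [← ih w h1 h2 z hz h3]
  have hsat : ∀ (φ : Fml) (e : Env.{u}), (∀ i, e i ∈ X) →
      (Sat (π '' X) φ (fun i => π (e i)) ↔ Sat X φ e) := by
    intro φ
    induction φ with
    | mem i j =>
      intro e he
      simp only [Sat, hπ]
      exact ⟨fun ⟨y, h1, h2, h3⟩ => hinj y h2 _ (he i) h3 ▸ h1, fun h => ⟨_, h, he i, rfl⟩⟩
    | eq i j => exact fun e he => ⟨hinj _ (he i) _ (he j), fun h => congrArg π h⟩
    | neg φ ih => exact fun e he => not_congr (ih e he)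
    | and φ ψ ih1 ih2 => exact fun e he => and_congr (ih1 e he) (ih2 e he)
    | all φ ih =>
      intro e he
      have : ∀ x, (fun i => π (cons x e i)) = cons (π x) (fun i => π (e i)) := by
        intro x; funext i; cases i <;> rfl
      simp only [Sat]
      constructor
      · intro h x hx
        rw [← ih _ (cons_mem hx he), this]
        exact h _ ⟨x, hx, rfl⟩
      · rintro h _ ⟨x, hx, rfl⟩
        rw [← this, ih _ (cons_mem hx he)]
        exact h x hx
  let j : ZFSet.{u} → ZFSet.{u} := fun m => if h : m ∈ π '' X then h.choose else ∅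
  have hj : ∀ m ∈ π '' X, j m ∈ X ∧ π (j m) = m := by
    intro m hm
    simp only [j, dif_pos hm]
    exact hm.choose_spec
  refine ⟨π '' X, j, hc.image _, ⟨?_, ∅, h0, ?_⟩, fun φ e he => ?_⟩
  · rintro _ ⟨x, -, rfl⟩ z hz
    obtain ⟨y, -, h1, h2⟩ := (hπ x z).1 hz
    exact ⟨y, h1, h2⟩
  · rw [ZFSet.eq_empty]
    intro z hz
    obtain ⟨y, h, -⟩ := (hπ _ z).1 hz
    exact notMem_empty _ h
  · rw [← hX φ _ fun i => (hj _ (he i)).1, ← hsat φ _ fun i => (hj _ (he i)).1]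
    simp only [fun i => (hj _ (he i)).2]

variable {M : Set ZFSet.{u}} {j : ZFSet.{u} → ZFSet.{u}}

theorem IsElem.transfer (h : IsElem M j) (R : Set ZFSet.{u} → Env.{u} → Prop) [hR : UDf R]
    (e : Env.{u}) (he : ∀ i, e i ∈ M) : R M e ↔ R Set.univ (fun i => j (e i)) := by
  obtain ⟨φ, hφ⟩ := hR.out
  rw [hφ M h.trans e he, hφ Set.univ inferInstance _ fun _ => trivial, h.elem φ e he]

/-- Transfer of sentences. -/
theorem IsElem.sentence (h : IsElem M j) (R : Set ZFSet.{u} → Prop) [UDf (fun M _ => R M)]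
    (hR : R Set.univ) : R M :=
  (h.transfer (fun M _ => R M) (fun _ => ∅) fun _ => h.trans.empty).2 hR

theorem IsElem.isZFModel (h : IsElem M j) : IsZFModel M := by
  have := h.trans
  refine ⟨h.trans.trans, ?_, ?_, ?_, ?_, ?_, ?_⟩
  · intro x hx y hy
    obtain ⟨z, hz, rfl⟩ := h.sentence (fun M => ∀ x ∈ M, ∀ y ∈ M, ∃ z ∈ M, z = {x, y})
      (fun x _ y _ => ⟨_, trivial, rfl⟩) x hx y hy
    exact hz
  · intro x hx
    obtain ⟨z, hz, h1, h2⟩ := h.sentence
      (fun M => ∀ x ∈ M, ∃ z ∈ M, (∀ y ∈ x, y ⊆ z) ∧ ∀ w ∈ z, ∃ y ∈ x, w ∈ y)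
      (fun x _ => ⟨⋃₀ x, trivial, fun y hy w hw => mem_sUnion.2 ⟨y, hy, hw⟩,
        fun w hw => mem_sUnion.1 hw⟩) x hx
    convert hz using 1
    ext w
    rw [mem_sUnion]
    exact ⟨fun ⟨y, hy, hw⟩ => h1 y hy hw, h2 w⟩
  · exact h.sentence (fun M => ∀ x ∈ M, ∃ y ∈ M, ∀ z ∈ M, z ⊆ x → z ∈ y)
      (fun x _ => ⟨powerset x, trivial, fun z _ hz => mem_powerset.2 hz⟩)
  · obtain ⟨w, hw, h1⟩ := h.sentence (fun M => ∃ w ∈ M, IsOmega w)
      ⟨omega, trivial, isOmega_iff.2 rfl⟩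
    exact isOmega_iff.1 h1 ▸ hw
  · intro φ e he a ha
    have h1 := (UDf.sat.{u} φ).rename (fun i => match i with | 0 => 0 | i + 1 => i + 1 + 1 + 1)
    have h2 : UDf.{u} (fun M e => Sat M φ (cons (e 0) fun i => e (i + 1 + 1 + 1))) :=
      h1.congr fun _ _ e _ => by
        congr! 2 with i; cases i <;> rfl
    obtain ⟨b, hb, h3⟩ := (h.transfer (fun M e => ∃ b ∈ M, ∀ x ∈ M,
      (x ∈ b ↔ x ∈ e 0 ∧ Sat M φ (cons x fun i => e (i + 1)))) (cons a e) (cons_mem ha he)).2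
      ⟨(j a).sep fun x => Sat Set.univ φ (cons x fun i => j (e i)), trivial,
        fun x _ => mem_sep⟩
    convert hb using 1
    ext x
    rw [mem_sep]
    exact ⟨fun hx => (h3 x (mem_of_mem ha hx.1)).2 hx, fun hx => (h3 x (mem_of_mem hb hx)).1 hx⟩
  · intro φ e he a ha hex
    have h1 : UDf.{u} (fun M e => Sat M φ (cons (e 0) (cons (e 1) fun i => e (i + 1 + 1 + 1 + 1)))) :=
      ((UDf.sat.{u} φ).rename (fun i => match i with
        | 0 => 0 | 1 => 1 | i + 2 => i + 1 + 1 + 1 + 1)).congr fun _ _ e _ => by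
        congr! 2 with i; rcases i with _ | _ | i <;> rfl
    have h2 : UDf.{u} (fun M e => Sat M φ (cons (e 0) (cons (e 1) fun i => e (i + 1 + 1 + 1)))) :=
      ((UDf.sat.{u} φ).rename (fun i => match i with
        | 0 => 0 | 1 => 1 | i + 2 => i + 1 + 1 + 1)).congr fun _ _ e _ => by
        congr! 2 with i; rcases i with _ | _ | i <;> rfl
    refine (h.transfer (fun M e =>
      (∀ x ∈ e 0, ∃ y ∈ M, Sat M φ (cons y (cons x fun i => e (i + 1)))) →
      ∃ b ∈ M, ∀ x ∈ e 0, ∃ y ∈ b, Sat M φ (cons y (cons x fun i => e (i + 1))))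
      (cons a e) (cons_mem ha he)).2 ?_ fun x hx => (hex x hx).exists
    intro H
    choose f hf using fun x : (j a) => H x.1 x.2
    exact ⟨range f, trivial, fun x hx => ⟨f ⟨x, hx⟩, mem_range_self _, (hf ⟨x, hx⟩).2⟩⟩

variable {P le H : ZFSet.{u}}

/-- Over a countable class there is a generic filter through any condition. -/
theorem exists_generic (hM : M.Countable) (hP : IsForcing P le) {p0 : ZFSet.{u}} (hp0 : p0 ∈ P) :
    ∃ H, p0 ∈ H ∧ IsGeneric M P le H := by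
  classical
  obtain ⟨D, hD⟩ := (hM.insert ∅).exists_eq_range ⟨∅, Set.mem_insert _ _⟩
  let nx : ℕ → ZFSet.{u} → ZFSet.{u} := fun n p =>
    if h : ∃ q ∈ D n, pair q p ∈ le then h.choose else p
  obtain ⟨s, hs0, hs⟩ : ∃ s : ℕ → ZFSet.{u}, s 0 = p0 ∧ ∀ n, s (n + 1) = nx n (s n) :=
    ⟨fun n => Nat.rec p0 nx n, rfl, fun _ => rfl⟩
  have h1 : ∀ n, s n ∈ P → pair (s (n + 1)) (s n) ∈ le := by
    intro n hn
    rw [hs]
    simp only [nx]
    split_ifs with h
    exacts [h.choose_spec.2, hP.refl _ hn]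
  have h2 : ∀ n, s n ∈ P := by
    intro n
    induction n with
    | zero => exact hs0 ▸ hp0
    | succ n ih => exact hP.left (h1 n ih)
  have h3 : ∀ m n, m ≤ n → pair (s n) (s m) ∈ le := by
    intro m n hmn
    induction hmn with
    | refl => exact hP.refl _ (h2 m)
    | step _ ih => exact hP.trans _ _ _ (h1 _ (h2 _)) ih
  refine ⟨P.sep fun p => ∃ n, pair (s n) p ∈ le, mem_sep.2 ⟨hp0, 0, hs0 ▸ hP.refl _ (h2 0)⟩,
    sep_subset, ?_, ?_, ?_⟩
  · intro p q hq h
    obtain ⟨n, hn⟩ := (mem_sep.1 hq).2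
    exact mem_sep.2 ⟨hP.right h, n, hP.trans _ _ _ hn h⟩
  · intro p hp q hq
    obtain ⟨n, hn⟩ := (mem_sep.1 hp).2
    obtain ⟨m, hm⟩ := (mem_sep.1 hq).2
    exact ⟨s (max n m), mem_sep.2 ⟨h2 _, _, hP.refl _ (h2 _)⟩,
      hP.trans _ _ _ (h3 _ _ (le_max_left _ _)) hn, hP.trans _ _ _ (h3 _ _ (le_max_right _ _)) hm⟩
  · intro E hE _ hd
    obtain ⟨n, rfl⟩ : E ∈ Set.range D := hD ▸ Set.mem_insert_of_mem _ hE
    have h4 := hd _ (h2 n)
    refine ⟨s (n + 1), ?_, mem_sep.2 ⟨h2 _, _, hP.refl _ (h2 _)⟩⟩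
    rw [hs]
    simp only [nx, dif_pos h4]
    exact h4.choose_spec.1

section
variable [hM : ZFm M]

theorem generic_mem (hP : IsForcing P le) (hPM : P ∈ M) (hH : IsGeneric M P le H) :
    H ∈ genericExt M H := by
  obtain ⟨p0, hp0⟩ := hH.nonempty hP hPM
  have := (tm_check hPM).apply1 (fun e => e 0)
  obtain ⟨b, hb, Hb⟩ := exists_image_tm (M := M) (fun p => pair (check P p) p) hPM
  refine ⟨b, hb, ?_⟩
  ext x
  rw [mem_val]
  constructor
  · rintro ⟨σ, p, hp, h, rfl⟩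
    obtain ⟨q, -, h⟩ := (Hb _).1 h
    obtain ⟨rfl, rfl⟩ := pair_inj.1 h
    rwa [val_check hH.subset hp0]
  · intro hx
    exact ⟨_, x, hx, (Hb _).2 ⟨x, hH.subset hx, rfl⟩, val_check hH.subset hp0 x⟩

/-- Nice names: the trace of a set of the extension on a ground model set. -/
theorem exists_nice (hP : IsForcing P le) (hPM : P ∈ M) (hle : le ∈ M) (hH : IsGeneric M P le H)
    {Z a : ZFSet.{u}} (hZ : Z ∈ genericExt M H) (ha : a ∈ M) :
    ∃ S ∈ M, S ⊆ a.prod P ∧ (∀ x p q, pair x p ∈ S → pair q p ∈ le → pair x q ∈ S) ∧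
      ∀ x ∈ a, (x ∈ Z ↔ ∃ p ∈ H, pair x p ∈ S) := by
  obtain ⟨p0, hp0⟩ := hH.nonempty hP hPM
  obtain ⟨τ, hτ, rfl⟩ := hZ
  have h3 := df_frc_env1 hP hPM hle (.mem 0 1) (ε := fun _ => τ) (fun _ => hτ)
  have := (tm_check hPM).apply1 (fun e => e 1)
  have h4 : Df M (fun e => e 0 ∈ P ∧ FMem le (e 0) (check P (e 1)) τ) :=
    Df.subst2 (R := fun q ρ => q ∈ P ∧ FMem le q ρ τ) h3 _ _
  obtain ⟨S, hS, h5, HS⟩ := exists_pairSep (fun x q => q ∈ P ∧ FMem le q (check P x) τ)
    (h := h4) ha hPM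
  refine ⟨S, hS, h5, fun x p q h1 h2 => ?_, fun x hx => ?_⟩
  · obtain ⟨h6, -, -, h7⟩ := (HS x p).1 h1
    exact (HS x q).2 ⟨h6, hP.left h2, hP.left h2, fun s hs => h7 s (hP.trans _ _ _ hs h2)⟩
  · have := truth_mem hP hPM hle hH ((tm_check hPM).mem1 (mem_of_mem ha hx)) hτ
    rw [val_check hH.subset hp0] at this
    rw [this]
    refine exists_congr fun p => and_congr_right fun hp => ?_
    rw [HS]
    simp only [hx, hH.subset hp, true_and]

/-- Every set of the extension is covered by the image of a ground model set under a function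
of the extension. -/
theorem exists_cover (hP : IsForcing P le) (hPM : P ∈ M) (hH : IsGeneric M P le H)
    {x : ZFSet.{u}} (hx : x ∈ genericExt M H) :
    ∃ T ∈ M, ∃ v ∈ genericExt M H, (∀ σ y y', pair σ y ∈ v → pair σ y' ∈ v → y = y') ∧
      ∀ y ∈ x, ∃ σ ∈ T, pair σ y ∈ v := by
  obtain ⟨p0, hp0⟩ := hH.nonempty hP hPM
  obtain ⟨τ, hτ, rfl⟩ := hx
  obtain ⟨T, hT, h1, h2⟩ := exists_trans hτ
  have := InM.mk (mem_of_mem hPM (hH.subset hp0))
  have := (tm_check hPM).apply1 (fun e => e 0)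
  have hs : ∀ a, val H {pair a p0} = {val H a} := by
    intro a; ext z; simp [mem_val, hp0, eq_comm]
  have hu : ∀ a b, val H {pair a p0, pair b p0} = {val H a, val H b} := by
    intro a b
    ext z
    rw [mem_val, mem_pair]
    constructor
    · rintro ⟨σ, p, -, h, rfl⟩
      rcases mem_pair.1 h with h | h <;> obtain ⟨rfl, rfl⟩ := pair_inj.1 h
      exacts [Or.inl rfl, Or.inr rfl]
    · rintro (rfl | rfl)
      exacts [⟨a, p0, hp0, mem_pair.2 (Or.inl rfl), rfl⟩, ⟨b, p0, hp0, mem_pair.2 (Or.inr rfl), rfl⟩]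
  obtain ⟨b, hb, Hb⟩ := exists_image_tm (M := M) (fun σ => pair
    ({pair {pair (check P σ) p0} p0, pair {pair (check P σ) p0, pair σ p0} p0} : ZFSet.{u}) p0) hT
  have key : ∀ z, z ∈ val H b ↔ ∃ σ ∈ T, z = pair σ (val H σ) := by
    intro z
    rw [mem_val]
    constructor
    · rintro ⟨ρ, p, -, h, rfl⟩
      obtain ⟨σ, hσ, h⟩ := (Hb _).1 h
      obtain ⟨rfl, rfl⟩ := pair_inj.1 h
      refine ⟨σ, hσ, ?_⟩
      rw [hu, hs, hu, val_check hH.subset hp0]; rfl
    · rintro ⟨σ, hσ, rfl⟩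
      refine ⟨_, p0, hp0, (Hb _).2 ⟨σ, hσ, rfl⟩, ?_⟩
      rw [hu, hs, hu, val_check hH.subset hp0]; rfl
  refine ⟨T, hT, _, ⟨b, hb, rfl⟩, fun σ y y' h3 h4 => ?_, fun y hy => ?_⟩
  · obtain ⟨σ1, -, h3⟩ := (key _).1 h3
    obtain ⟨σ2, -, h4⟩ := (key _).1 h4
    obtain ⟨rfl, rfl⟩ := pair_inj.1 h3
    obtain ⟨rfl, rfl⟩ := pair_inj.1 h4
    rfl
  · obtain ⟨σ, p, -, h, rfl⟩ := mem_val.1 hy
    exact ⟨σ, dom_mem_trans h1 h2 h, (key _).2 ⟨σ, dom_mem_trans h1 h2 h, rfl⟩⟩

end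

end Pool.Agent.Lib.Forcing
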