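import Pool.Agent.Lib.Forcing.Defs

/-!
Definability with parameters over a transitive class, organised for instance search.
`Df M R`: the predicate `R` on assignments is definable over `(M, ∈)` with parameters in `M`.
`Tm M t`: the operation `t` maps assignments in `M` into `M` and has a definable graph.
-/

universe u

namespace Pool.Agent.Lib.Forcing

open ZFSet

abbrev Env := ℕ → ZFSet.{u}

@[simp] theorem cons_zero (x : ZFSet.{u}) (e : Env.{u}) : cons x e 0 = x := rfl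
@[simp] theorem cons_succ (x : ZFSet.{u}) (e : Env.{u}) (n : ℕ) : cons x e (n + 1) = e n := rfl

theorem cons_mem {M : Set ZFSet.{u}} {x : ZFSet.{u}} {e : Env.{u}} (hx : x ∈ M)
    (he : ∀ i, e i ∈ M) : ∀ i, cons x e i ∈ M
  | 0 => hx
  | n + 1 => he n

/-- Lift a renaming under a binder. -/
def up (f : ℕ → ℕ) : ℕ → ℕ
  | 0 => 0
  | n + 1 => f n + 1

def Fml.rename : Fml → (ℕ → ℕ) → Fml
  | .mem i j, f => .mem (f i) (f j)
  | .eq i j, f => .eq (f i) (f j)
  | .neg φ, f => .neg (φ.rename f)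
  | .and φ ψ, f => .and (φ.rename f) (ψ.rename f)
  | .all φ, f => .all (φ.rename (up f))

theorem sat_rename (M : Set ZFSet.{u}) (φ : Fml) : ∀ (f : ℕ → ℕ) (e : Env.{u}),
    Sat M (φ.rename f) e ↔ Sat M φ (fun i => e (f i)) := by
  induction φ with
  | mem i j => intro f e; rfl
  | eq i j => intro f e; rfl
  | neg φ ih => intro f e; simp only [Fml.rename, Sat, ih]
  | and φ ψ ih1 ih2 => intro f e; simp only [Fml.rename, Sat, ih1, ih2]
  | all φ ih =>
    intro f e
    simp only [Fml.rename, Sat, ih]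
    refine forall_congr' fun x => forall_congr' fun _ => ?_
    have : (fun i => cons x e (up f i)) = cons x (fun i => e (f i)) := by
      funext i; cases i <;> rfl
    rw [this]

/-- Interleave two assignments. -/
def mix (e p : Env.{u}) : Env.{u} := fun i => if i % 2 = 0 then e (i / 2) else p (i / 2)

theorem mix_even (e p : Env.{u}) (i : ℕ) : mix e p (2 * i) = e i := by
  simp [mix]

theorem mix_odd (e p : Env.{u}) (i : ℕ) : mix e p (2 * i + 1) = p i := by
  have h1 : (2 * i + 1) % 2 = 1 := by omega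
  have h2 : (2 * i + 1) / 2 = i := by omega
  simp [mix, h1, h2]

theorem mix_mem {M : Set ZFSet.{u}} {e p : Env.{u}} (he : ∀ i, e i ∈ M) (hp : ∀ i, p i ∈ M)
    (i : ℕ) : mix e p i ∈ M := by
  unfold mix; split_ifs; exacts [he _, hp _]

/-- Definability over `(M, ∈)` with parameters from `M`. -/
class Df (M : Set ZFSet.{u}) (R : Env.{u} → Prop) : Prop where
  out : ∃ (φ : Fml) (p : Env.{u}), (∀ i, p i ∈ M) ∧
    ∀ e : Env.{u}, (∀ i, e i ∈ M) → (R e ↔ Sat M φ (mix e p))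

/-- Definable operations on `M`. -/
class Tm (M : Set ZFSet.{u}) (t : Env.{u} → ZFSet.{u}) : Prop where
  mem : ∀ e : Env.{u}, (∀ i, e i ∈ M) → t e ∈ M
  df : Df M (fun e => e 0 = t (fun i => e (i + 1)))

/-- Membership in `M`, as a class. -/
class InM (M : Set ZFSet.{u}) (c : ZFSet.{u}) : Prop where
  out : c ∈ M

/-- Nonempty transitive classes. -/
class Trans (M : Set ZFSet.{u}) : Prop where
  trans : ∀ x ∈ M, ∀ y ∈ x, y ∈ M
  empty : (∅ : ZFSet.{u}) ∈ M

variable {M : Set ZFSet.{u}}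

theorem mem_of_mem [h : Trans M] {x y : ZFSet.{u}} (hx : x ∈ M) (hy : y ∈ x) : y ∈ M :=
  h.trans x hx y hy

theorem fst_mem_of_pair_mem [Trans M] {a b : ZFSet.{u}} (h : pair a b ∈ M) : a ∈ M :=
  mem_of_mem (mem_of_mem h (mem_insert _ _)) (mem_singleton.2 rfl)

theorem snd_mem_of_pair_mem [Trans M] {a b : ZFSet.{u}} (h : pair a b ∈ M) : b ∈ M :=
  mem_of_mem (mem_of_mem h (mem_pair.2 (Or.inr rfl))) (mem_pair.2 (Or.inr rfl))

theorem fst_mem [Trans M] {a b t : ZFSet.{u}} (ht : t ∈ M) (h : pair a b ∈ t) : a ∈ M :=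
  fst_mem_of_pair_mem (mem_of_mem ht h)

theorem snd_mem [Trans M] {a b t : ZFSet.{u}} (ht : t ∈ M) (h : pair a b ∈ t) : b ∈ M :=
  snd_mem_of_pair_mem (mem_of_mem ht h)

theorem Df.congr {R S : Env.{u} → Prop} (h : Df M R)
    (hRS : ∀ e : Env.{u}, (∀ i, e i ∈ M) → (R e ↔ S e)) : Df M S := by
  obtain ⟨φ, p, hp, h⟩ := h.out
  exact ⟨φ, p, hp, fun e he => (hRS e he).symm.trans (h e he)⟩

theorem Df.rename {R : Env.{u} → Prop} (h : Df M R) (f : ℕ → ℕ) :
    Df M (fun e => R (fun i => e (f i))) := by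
  obtain ⟨φ, p, hp, h⟩ := h.out
  refine ⟨φ.rename (fun i => if i % 2 = 0 then 2 * f (i / 2) else i), p, hp, fun e he => ?_⟩
  rw [sat_rename, h _ (fun i => he _)]
  have : (fun i => mix e p (if i % 2 = 0 then 2 * f (i / 2) else i)) =
      mix (fun i => e (f i)) p := by
    funext i
    by_cases hi : i % 2 = 0
    · rw [if_pos hi, mix_even]; simp [mix, hi]
    · rw [if_neg hi]; simp [mix, hi]
  rw [this]

theorem Df.sat [hM : Trans M] (φ : Fml) : Df M (fun e => Sat M φ e) := by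
  refine ⟨φ.rename (fun i => 2 * i), fun _ => ∅, fun _ => hM.empty, fun e _ => ?_⟩
  rw [sat_rename]
  simp only [mix_even]

theorem Df.memVar [Trans M] (i j : ℕ) : Df M (fun e => e i ∈ e j) := Df.sat (.mem i j)
theorem Df.eqVar [Trans M] (i j : ℕ) : Df M (fun e => e i = e j) := Df.sat (.eq i j)

theorem Df.eqConst {c : ZFSet.{u}} (hc : c ∈ M) (i : ℕ) : Df M (fun e => e i = c) := by
  refine ⟨.eq (2 * i) 1, fun _ => c, fun _ => hc, fun e _ => ?_⟩
  simp [Sat, mix]

instance Df.not {R : Env.{u} → Prop} [h : Df M R] : Df M (fun e => ¬ R e) := by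
  obtain ⟨φ, p, hp, h⟩ := h.out
  exact ⟨.neg φ, p, hp, fun e he => not_congr (h e he)⟩

instance Df.and {R S : Env.{u} → Prop} [h : Df M R] [k : Df M S] :
    Df M (fun e => R e ∧ S e) := by
  obtain ⟨φ, p, hp, h⟩ := h.out
  obtain ⟨ψ, q, hq, k⟩ := k.out
  refine ⟨.and (φ.rename (fun i => if i % 2 = 0 then i else 2 * (2 * (i / 2)) + 1))
    (ψ.rename (fun i => if i % 2 = 0 then i else 2 * (2 * (i / 2) + 1) + 1)), mix p q,
    mix_mem hp hq, fun e he => ?_⟩
  simp only [Sat, sat_rename]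
  have h1 : (fun i => mix e (mix p q) (if i % 2 = 0 then i else 2 * (2 * (i / 2)) + 1)) =
      mix e p := by
    funext i
    by_cases hi : i % 2 = 0
    · rw [if_pos hi]; simp [mix, hi]
    · rw [if_neg hi, mix_odd, mix_even]; simp [mix, hi]
  have h2 : (fun i => mix e (mix p q) (if i % 2 = 0 then i else 2 * (2 * (i / 2) + 1) + 1)) =
      mix e q := by
    funext i
    by_cases hi : i % 2 = 0
    · rw [if_pos hi]; simp [mix, hi]
    · rw [if_neg hi, mix_odd, mix_odd]; simp [mix, hi]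
  rw [h1, h2, h e he, k e he]

theorem Df.all' {R : Env.{u} → Prop} (h : Df M R) : Df M (fun e => ∀ x ∈ M, R (cons x e)) := by
  obtain ⟨φ, p, hp, h⟩ := h.out
  refine ⟨.all (φ.rename (fun i => if i % 2 = 0 then (if i = 0 then 0 else i - 1) else i + 1)),
    p, hp, fun e he => ?_⟩
  simp only [Sat, sat_rename]
  refine forall_congr' fun x => forall_congr' fun hx => ?_
  rw [h _ (cons_mem hx he)]
  have : (fun i => cons x (mix e p)
      (if i % 2 = 0 then (if i = 0 then 0 else i - 1) else i + 1)) = mix (cons x e) p := by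
    funext i
    by_cases hi : i % 2 = 0
    · rw [if_pos hi]
      by_cases h0 : i = 0
      · subst h0; rfl
      · rw [if_neg h0]
        obtain ⟨k, rfl⟩ : ∃ k, i = 2 * (k + 1) := ⟨i / 2 - 1, by omega⟩
        rw [mix_even, show 2 * (k + 1) - 1 = 2 * k + 1 by omega, cons_succ, cons_succ, mix_even]
    · rw [if_neg hi, cons_succ]; simp [mix, hi]
  rw [this]

instance Df.allM {R : ZFSet.{u} → Env.{u} → Prop}
    [h : Df M (fun e => R (e 0) (fun i => e (i + 1)))] : Df M (fun e => ∀ x ∈ M, R x e) :=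
  h.all'

instance Df.imp {R S : Env.{u} → Prop} [Df M R] [Df M S] : Df M (fun e => R e → S e) :=
  (inferInstance : Df M (fun e => ¬ (R e ∧ ¬ S e))).congr fun _ _ => by tauto

instance Df.or {R S : Env.{u} → Prop} [Df M R] [Df M S] : Df M (fun e => R e ∨ S e) :=
  (inferInstance : Df M (fun e => ¬ R e → S e)).congr fun _ _ => by tauto

instance Df.iff {R S : Env.{u} → Prop} [Df M R] [Df M S] : Df M (fun e => R e ↔ S e) :=
  (inferInstance : Df M (fun e => (R e → S e) ∧ (S e → R e))).congr fun _ _ => by tauto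

instance Df.exM {R : ZFSet.{u} → Env.{u} → Prop}
    [Df M (fun e => R (e 0) (fun i => e (i + 1)))] : Df M (fun e => ∃ x ∈ M, R x e) :=
  (inferInstance : Df M (fun e => ¬ ∀ x ∈ M, ¬ R x e)).congr fun _ _ => by push Not; rfl

instance Tm.var [Trans M] (i : ℕ) : Tm M (fun e => e i) :=
  ⟨fun _ he => he i, Df.eqVar 0 (i + 1)⟩

instance (priority := high) Tm.const {c : ZFSet.{u}} [h : InM M c] : Tm M (fun _ => c) :=
  ⟨fun _ _ => h.out, Df.eqConst h.out 0⟩

theorem Tm.rename {t : Env.{u} → ZFSet.{u}} (h : Tm M t) (f : ℕ → ℕ) :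
    Tm M (fun e => t (fun i => e (f i))) :=
  ⟨fun _ he => h.mem _ fun _ => he _, h.df.rename (up f)⟩

theorem Tm.shift {t : Env.{u} → ZFSet.{u}} (h : Tm M t) : Tm M (fun e => t (fun i => e (i + 1))) :=
  h.rename (· + 1)

theorem Df.consTm {R : Env.{u} → Prop} (h : Df M R) {s : Env.{u} → ZFSet.{u}} (hs : Tm M s) :
    Df M (fun e => R (cons (s e) e)) := by
  have h1 : Df M (fun e => (e 0 = s (fun i => e (i + 1))) → R e) := @Df.imp _ _ _ hs.df h
  refine h1.all'.congr fun e he => ?_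
  constructor
  · intro H; exact H _ (hs.mem e he) rfl
  · rintro H x - (rfl : x = s e); exact H

theorem Df.subst1 {R : ZFSet.{u} → Prop} (h : Df M (fun e => R (e 0)))
    (s : Env.{u} → ZFSet.{u}) [hs : Tm M s] : Df M (fun e => R (s e)) :=
  h.consTm hs

theorem Df.subst2 {R : ZFSet.{u} → ZFSet.{u} → Prop} (h : Df M (fun e => R (e 0) (e 1)))
    (s t : Env.{u} → ZFSet.{u}) [hs : Tm M s] [ht : Tm M t] : Df M (fun e => R (s e) (t e)) :=
  (h.consTm hs.shift).consTm ht

theorem Df.subst3 {R : ZFSet.{u} → ZFSet.{u} → ZFSet.{u} → Prop}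
    (h : Df M (fun e => R (e 0) (e 1) (e 2)))
    (s t w : Env.{u} → ZFSet.{u}) [hs : Tm M s] [ht : Tm M t] [hw : Tm M w] :
    Df M (fun e => R (s e) (t e) (w e)) :=
  ((h.consTm hs.shift.shift).consTm ht.shift).consTm hw

theorem Df.subst4 {R : ZFSet.{u} → ZFSet.{u} → ZFSet.{u} → ZFSet.{u} → Prop}
    (h : Df M (fun e => R (e 0) (e 1) (e 2) (e 3)))
    (s t w v : Env.{u} → ZFSet.{u}) [hs : Tm M s] [ht : Tm M t] [hw : Tm M w] [hv : Tm M v] :
    Df M (fun e => R (s e) (t e) (w e) (v e)) :=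
  (((h.consTm hs.shift.shift.shift).consTm ht.shift.shift).consTm hw.shift).consTm hv

theorem Tm.comp1 {F : ZFSet.{u} → ZFSet.{u}} [Trans M] (hm : ∀ x ∈ M, F x ∈ M)
    (h : Df M (fun e => e 0 = F (e 1))) (s : Env.{u} → ZFSet.{u}) [hs : Tm M s] :
    Tm M (fun e => F (s e)) :=
  ⟨fun e he => hm _ (hs.mem e he),
    @Df.subst2 M (fun a b => a = F b) h (fun e => e 0) _ (Tm.var 0) hs.shift⟩

theorem Tm.comp2 {F : ZFSet.{u} → ZFSet.{u} → ZFSet.{u}} [Trans M]
    (hm : ∀ x ∈ M, ∀ y ∈ M, F x y ∈ M)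
    (h : Df M (fun e => e 0 = F (e 1) (e 2))) (s t : Env.{u} → ZFSet.{u}) [hs : Tm M s]
    [ht : Tm M t] : Tm M (fun e => F (s e) (t e)) :=
  ⟨fun e he => hm _ (hs.mem e he) _ (ht.mem e he),
    @Df.subst3 M (fun a b c => a = F b c) h (fun e => e 0) _ _ (Tm.var 0) hs.shift ht.shift⟩

section
variable [Trans M]

instance Df.mem {s t : Env.{u} → ZFSet.{u}} [Tm M s] [Tm M t] : Df M (fun e => s e ∈ t e) :=
  Df.subst2 (R := fun a b => a ∈ b) (Df.memVar 0 1) s t

instance Df.eq {s t : Env.{u} → ZFSet.{u}} [Tm M s] [Tm M t] : Df M (fun e => s e = t e) :=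
  Df.subst2 (R := fun a b => a = b) (Df.eqVar 0 1) s t

instance Df.allIn {t : Env.{u} → ZFSet.{u}} [ht : Tm M t] {R : ZFSet.{u} → Env.{u} → Prop}
    [Df M (fun e => R (e 0) (fun i => e (i + 1)))] : Df M (fun e => ∀ x ∈ t e, R x e) :=
  have := ht.shift
  (inferInstance : Df M (fun e => ∀ x ∈ M, x ∈ t e → R x e)).congr fun e he =>
    ⟨fun H x hx => H x (mem_of_mem (ht.mem e he) hx) hx, fun H x _ hx => H x hx⟩

instance Df.exIn {t : Env.{u} → ZFSet.{u}} [ht : Tm M t] {R : ZFSet.{u} → Env.{u} → Prop}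
    [Df M (fun e => R (e 0) (fun i => e (i + 1)))] : Df M (fun e => ∃ x ∈ t e, R x e) :=
  (inferInstance : Df M (fun e => ¬ ∀ x ∈ t e, ¬ R x e)).congr fun _ _ => by push Not; rfl

instance Df.subset {s t : Env.{u} → ZFSet.{u}} [Tm M s] [Tm M t] : Df M (fun e => s e ⊆ t e) :=
  Df.subst2 (R := fun a b => a ⊆ b)
    ((inferInstance : Df M (fun e => ∀ x ∈ e 0, x ∈ e 1)).congr fun _ _ => Iff.rfl) s t

instance Df.ne {s t : Env.{u} → ZFSet.{u}} [Tm M s] [Tm M t] : Df M (fun e => s e ≠ t e) :=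
  (inferInstance : Df M (fun e => ¬ s e = t e))

instance Df.isTransitive {s : Env.{u} → ZFSet.{u}} [Tm M s] :
    Df M (fun e => (s e).IsTransitive) :=
  Df.subst1 (R := fun a => a.IsTransitive)
    ((inferInstance : Df M (fun e => ∀ x ∈ e 0, x ⊆ e 0)).congr fun _ _ => Iff.rfl) s

instance Df.isOrdinal {s : Env.{u} → ZFSet.{u}} [Tm M s] :
    Df M (fun e => (s e).IsOrdinal) :=
  Df.subst1 (R := fun a => a.IsOrdinal)
    ((inferInstance : Df M (fun e => (e 0).IsTransitive ∧ ∀ x ∈ e 0, x.IsTransitive)).congr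
      fun _ _ => isOrdinal_iff_forall_mem_isTransitive.symm) s

instance InM.empty : InM M ∅ := ⟨Trans.empty⟩

end

end Pool.Agent.Lib.Forcing
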