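import Mathlib.SetTheory.ZFC.VonNeumann

/-!
Transitive models of ZF inside Mathlib's universe `ZFSet`, set forcing over them, and generic
extensions. Only definitions and the defining equation of the evaluation map are in this file.
-/

universe u

namespace Pool.Agent.Lib.Forcing

open ZFSet

/-- Formulas of the first-order language of set theory (membership and equality), with
de Bruijn variables: `all φ` binds variable `0` of `φ`. -/
inductive Fml : Type
  | mem (i j : ℕ) : Fml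
  | eq (i j : ℕ) : Fml
  | neg (φ : Fml) : Fml
  | and (φ ψ : Fml) : Fml
  | all (φ : Fml) : Fml

/-- The assignment that gives variable `0` the value `x` and variable `n + 1` the value `e n`. -/
def cons (x : ZFSet.{u}) (e : ℕ → ZFSet.{u}) : ℕ → ZFSet.{u}
  | 0 => x
  | n + 1 => e n

/-- Tarski satisfaction in the structure `(M, ∈)`: quantifiers range over the class `M`. -/
def Sat (M : Set ZFSet.{u}) : Fml → (ℕ → ZFSet.{u}) → Prop
  | .mem i j, e => e i ∈ e j
  | .eq i j, e => e i = e j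
  | .neg φ, e => ¬ Sat M φ e
  | .and φ ψ, e => Sat M φ e ∧ Sat M ψ e
  | .all φ, e => ∀ x ∈ M, Sat M φ (cons x e)

/-- `M` is a transitive model of ZF (no choice). Extensionality and Foundation hold in every
transitive class; the other axioms are written out, the two schemes for all formulas with
parameters from `M`. `M` may be a set (for instance a countable one) or a proper class. -/
structure IsZFModel (M : Set ZFSet.{u}) : Prop where
  transitive : ∀ x ∈ M, ∀ y ∈ x, y ∈ M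
  pairing : ∀ x ∈ M, ∀ y ∈ M, ({x, y} : ZFSet.{u}) ∈ M
  union : ∀ x ∈ M, (⋃₀ x : ZFSet.{u}) ∈ M
  powerSet : ∀ x ∈ M, ∃ y ∈ M, ∀ z ∈ M, z ⊆ x → z ∈ y
  infinity : omega ∈ M
  separation : ∀ (φ : Fml) (e : ℕ → ZFSet.{u}), (∀ i, e i ∈ M) → ∀ a ∈ M,
    a.sep (fun x => Sat M φ (cons x e)) ∈ M
  replacement : ∀ (φ : Fml) (e : ℕ → ZFSet.{u}), (∀ i, e i ∈ M) → ∀ a ∈ M,
    (∀ x ∈ a, ∃! y, y ∈ M ∧ Sat M φ (cons y (cons x e))) →
    ∃ b ∈ M, ∀ x ∈ a, ∃ y ∈ b, Sat M φ (cons y (cons x e))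

/-- `(P, le)` is a forcing notion: `le` is a reflexive transitive relation on the set `P`;
`pair q p ∈ le` means that `q` extends (is stronger than) `p`. -/
structure IsForcing (P le : ZFSet.{u}) : Prop where
  subset : le ⊆ P.prod P
  refl : ∀ p ∈ P, pair p p ∈ le
  trans : ∀ p q r, pair r q ∈ le → pair q p ∈ le → pair r p ∈ le

/-- `H` is a filter on `(P, le)` that meets every dense subset of `P` lying in `M`. -/
structure IsGeneric (M : Set ZFSet.{u}) (P le H : ZFSet.{u}) : Prop where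
  subset : H ⊆ P
  upward : ∀ p q, q ∈ H → pair q p ∈ le → p ∈ H
  directed : ∀ p ∈ H, ∀ q ∈ H, ∃ r ∈ H, pair r p ∈ le ∧ pair r q ∈ le
  meets : ∀ D ∈ M, D ⊆ P → (∀ p ∈ P, ∃ q ∈ D, pair q p ∈ le) → ∃ q ∈ D, q ∈ H

theorem rank_lt_of_pair_mem {σ p τ : ZFSet.{u}} (h : pair σ p ∈ τ) : σ.rank < τ.rank :=
  (rank_lt_of_mem (mem_singleton.2 rfl)).trans
    ((rank_lt_of_mem (mem_insert {σ} {{σ, p}})).trans (rank_lt_of_mem h))

/-- The value of the name `τ` under the filter `H`:
`val H τ = {val H σ | ∃ p ∈ H, (σ, p) ∈ τ}` (see `mem_val`). As in Shoenfield's unramified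
forcing every set is a name; elements that are not pairs `(σ, p)` with `p ∈ H` are ignored. -/
noncomputable def val (H τ : ZFSet.{u}) : ZFSet.{u} :=
  range fun σ : (⋃₀ ⋃₀ τ : ZFSet.{u}).sep (fun σ => ∃ p ∈ H, pair σ p ∈ τ) => val H σ.1
termination_by τ.rank
decreasing_by exact rank_lt_of_pair_mem (mem_sep.1 σ.2).2.choose_spec.2

theorem mem_val {H τ x : ZFSet.{u}} :
    x ∈ val H τ ↔ ∃ σ p, p ∈ H ∧ pair σ p ∈ τ ∧ val H σ = x := by
  rw [val, mem_range]
  constructor
  · rintro ⟨⟨σ, hσ⟩, rfl⟩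
    obtain ⟨p, hp, h⟩ := (mem_sep.1 hσ).2
    exact ⟨σ, p, hp, h, rfl⟩
  · rintro ⟨σ, p, hp, h, rfl⟩
    exact ⟨⟨σ, mem_sep.2 ⟨mem_sUnion.2 ⟨{σ}, mem_sUnion.2 ⟨_, h, mem_insert _ _⟩,
      mem_singleton.2 rfl⟩, p, hp, h⟩⟩, rfl⟩

/-- The generic extension `M[H]`: the values of all names in `M`. -/
def genericExt (M : Set ZFSet.{u}) (H : ZFSet.{u}) : Set ZFSet.{u} := val H '' M

end Pool.Agent.Lib.Forcing
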