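import Pool.Agent.Lib.Forcing.Model

/-!
The forcing relation, its definability, the truth lemma and the generic model theorem over a
transitive model of ZF (no choice).
-/

universe u

set_option synthInstance.maxSize 8192

namespace Pool.Agent.Lib.Forcing

open ZFSet

/-- One step of the recursion for forcing equality. -/
def EqStep (le p σ τ : ZFSet.{u}) (E : ZFSet.{u} → ZFSet.{u} → ZFSet.{u} → Prop) : Prop :=
  (∀ ρ r, pair ρ r ∈ σ → ∀ q, pair q p ∈ le → pair q r ∈ le →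
    ∃ q', pair q' q ∈ le ∧ ∃ ρ' r', pair ρ' r' ∈ τ ∧ pair q' r' ∈ le ∧ E q' ρ ρ') ∧
  (∀ ρ' r', pair ρ' r' ∈ τ → ∀ q, pair q p ∈ le → pair q r' ∈ le →
    ∃ q', pair q' q ∈ le ∧ ∃ ρ r, pair ρ r ∈ σ ∧ pair q' r ∈ le ∧ E q' ρ ρ')

theorem EqStep.congr {le p σ τ : ZFSet.{u}} {E E' : ZFSet.{u} → ZFSet.{u} → ZFSet.{u} → Prop}
    (h : ∀ q q0 ρ r ρ' r', pair q q0 ∈ le → pair ρ r ∈ σ → pair ρ' r' ∈ τ →
      (E q ρ ρ' → E' q ρ ρ')) (H : EqStep le p σ τ E) : EqStep le p σ τ E' := by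
  constructor
  · intro ρ r h1 q h2 h3
    obtain ⟨q', h4, ρ', r', h5, h6, h7⟩ := H.1 ρ r h1 q h2 h3
    exact ⟨q', h4, ρ', r', h5, h6, h _ _ _ _ _ _ h4 h1 h5 h7⟩
  · intro ρ' r' h1 q h2 h3
    obtain ⟨q', h4, ρ, r, h5, h6, h7⟩ := H.2 ρ' r' h1 q h2 h3
    exact ⟨q', h4, ρ, r, h5, h6, h _ _ _ _ _ _ h4 h5 h1 h7⟩

theorem exists_feq (le : ZFSet.{u}) : ∃ E : ZFSet.{u} → ZFSet.{u} → ZFSet.{u} → Prop,
    ∀ p σ τ, E p σ τ ↔ EqStep le p σ τ E := by
  let G : ZFSet.{u} → ZFSet.{u} → ZFSet.{u} → Prop :=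
    (InvImage.wf rank Ordinal.lt_wf).fix fun σ IH p τ =>
      EqStep le p σ τ (fun q ρ ρ' => ∃ h : ρ.rank < σ.rank, IH ρ h q ρ')
  refine ⟨fun p σ τ => G σ p τ, fun p σ τ => ?_⟩
  have : G σ p τ = EqStep le p σ τ (fun q ρ ρ' => ∃ _ : ρ.rank < σ.rank, G ρ q ρ') := by
    simp only [G]; rw [WellFounded.fix_eq]
  beta_reduce
  rw [this]
  exact ⟨EqStep.congr fun _ _ _ _ _ _ _ _ _ h => h.2,
    EqStep.congr fun _ _ _ _ _ _ _ h _ h' => ⟨rank_lt_of_pair_mem h, h'⟩⟩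

/-- `p` forces `σ = τ`. -/
def FEq (le : ZFSet.{u}) : ZFSet.{u} → ZFSet.{u} → ZFSet.{u} → Prop := (exists_feq le).choose

theorem feq_iff {le p σ τ : ZFSet.{u}} : FEq le p σ τ ↔ EqStep le p σ τ (FEq le) :=
  (exists_feq le).choose_spec p σ τ

/-- `p` forces `σ ∈ τ`. -/
def FMem (le p σ τ : ZFSet.{u}) : Prop :=
  ∀ q, pair q p ∈ le → ∃ q', pair q' q ∈ le ∧
    ∃ ρ r, pair ρ r ∈ τ ∧ pair q' r ∈ le ∧ FEq le q' σ ρ

/-- The forcing relation over `M`; the assignment gives names. -/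
def Frc (M : Set ZFSet.{u}) (le : ZFSet.{u}) : Fml → ZFSet.{u} → Env.{u} → Prop
  | .mem i j, p, e => FMem le p (e i) (e j)
  | .eq i j, p, e => FEq le p (e i) (e j)
  | .neg φ, p, e => ∀ q, pair q p ∈ le → ¬ Frc M le φ q e
  | .and φ ψ, p, e => Frc M le φ p e ∧ Frc M le ψ p e
  | .all φ, p, e => ∀ σ ∈ M, Frc M le φ p (cons σ e)

variable {M : Set ZFSet.{u}} {P le H : ZFSet.{u}}

theorem IsForcing.left (hP : IsForcing P le) {q p : ZFSet.{u}} (h : pair q p ∈ le) : q ∈ P :=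
  (pair_mem_prod.1 (hP.subset h)).1

theorem IsForcing.right (hP : IsForcing P le) {q p : ZFSet.{u}} (h : pair q p ∈ le) : p ∈ P :=
  (pair_mem_prod.1 (hP.subset h)).2

theorem IsForcing.rfl' (hP : IsForcing P le) {q p : ZFSet.{u}} (h : pair q p ∈ le) :
    pair q q ∈ le := hP.refl q (hP.left h)

theorem FEq.mono (hP : IsForcing P le) {p q σ τ : ZFSet.{u}} (h : FEq le p σ τ)
    (hq : pair q p ∈ le) : FEq le q σ τ := by
  rw [feq_iff] at h ⊢
  exact ⟨fun ρ r h1 s h2 h3 => h.1 ρ r h1 s (hP.trans _ _ _ h2 hq) h3,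
    fun ρ r h1 s h2 h3 => h.2 ρ r h1 s (hP.trans _ _ _ h2 hq) h3⟩

theorem FEq.dense (hP : IsForcing P le) {p σ τ : ZFSet.{u}}
    (h : ∀ q, pair q p ∈ le → ∃ q', pair q' q ∈ le ∧ FEq le q' σ τ) : FEq le p σ τ := by
  rw [feq_iff]
  constructor
  · intro ρ r h1 q h2 h3
    obtain ⟨q', h4, h5⟩ := h q h2
    obtain ⟨q'', h6, h7⟩ := (feq_iff.1 h5).1 ρ r h1 q' (hP.rfl' h4) (hP.trans _ _ _ h4 h3)
    exact ⟨q'', hP.trans _ _ _ h6 h4, h7⟩
  · intro ρ r h1 q h2 h3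
    obtain ⟨q', h4, h5⟩ := h q h2
    obtain ⟨q'', h6, h7⟩ := (feq_iff.1 h5).2 ρ r h1 q' (hP.rfl' h4) (hP.trans _ _ _ h4 h3)
    exact ⟨q'', hP.trans _ _ _ h6 h4, h7⟩

theorem Frc.mono (hP : IsForcing P le) (φ : Fml) : ∀ {p q : ZFSet.{u}} {e : Env.{u}},
    Frc M le φ p e → pair q p ∈ le → Frc M le φ q e := by
  induction φ with
  | mem i j => exact fun h hq s hs => h s (hP.trans _ _ _ hs hq)
  | eq i j => exact fun h hq => FEq.mono hP h hq
  | neg φ _ => exact fun h hq s hs => h s (hP.trans _ _ _ hs hq)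
  | and φ ψ ih1 ih2 => exact fun h hq => ⟨ih1 h.1 hq, ih2 h.2 hq⟩
  | all φ ih => exact fun h hq σ hσ => ih (h σ hσ) hq

theorem Frc.dense (hP : IsForcing P le) (φ : Fml) : ∀ {p : ZFSet.{u}} {e : Env.{u}},
    (∀ q, pair q p ∈ le → ∃ q', pair q' q ∈ le ∧ Frc M le φ q' e) → Frc M le φ p e := by
  induction φ with
  | mem i j =>
    intro p e h q hq
    obtain ⟨q', h1, h2⟩ := h q hq
    obtain ⟨q'', h3, h4⟩ := h2 q' (hP.rfl' h1)
    exact ⟨q'', hP.trans _ _ _ h3 h1, h4⟩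
  | eq i j => exact fun h => FEq.dense hP h
  | neg φ _ =>
    intro p e h q hq hφ
    obtain ⟨q', h1, h2⟩ := h q hq
    exact h2 q' (hP.rfl' h1) (Frc.mono hP φ hφ h1)
  | and φ ψ ih1 ih2 =>
    intro p e h
    exact ⟨ih1 fun q hq => (h q hq).imp fun _ h' => ⟨h'.1, h'.2.1⟩,
      ih2 fun q hq => (h q hq).imp fun _ h' => ⟨h'.1, h'.2.2⟩⟩
  | all φ ih =>
    intro p e h σ hσ
    exact ih fun q hq => (h q hq).imp fun _ h' => ⟨h'.1, h'.2 σ hσ⟩

section
variable [hM : ZFm M]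

theorem df_feq (hP : IsForcing P le) (hPM : P ∈ M) (hle : le ∈ M) :
    Df M (fun e => e 0 ∈ P ∧ FEq le (e 0) (e 1) (e 2)) := by
  have := InM.mk hPM
  have := InM.mk hle
  let F : ZFSet.{u} → ZFSet.{u} := fun x => P.sep fun p => ∃ σ τ, x = pair σ τ ∧ FEq le p σ τ
  let r : ZFSet.{u} → ZFSet.{u} → Prop := fun y x => ∃ σ τ, x = pair σ τ ∧
    ∃ ρ s, pair ρ s ∈ σ ∧ ∃ ρ' s', pair ρ' s' ∈ τ ∧ y = pair ρ ρ'
  have hr : WellFounded r := by
    have h1 : ∀ σ τ, Acc r (pair σ τ) := by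
      intro σ
      induction σ using (InvImage.wf rank Ordinal.lt_wf).induction with
      | h σ ih =>
        intro τ
        constructor
        rintro y ⟨σ', τ', h, ρ, s, h1, ρ', s', -, rfl⟩
        obtain ⟨rfl, rfl⟩ := pair_inj.1 h
        exact ih ρ (rank_lt_of_pair_mem h1) ρ'
    constructor
    intro x
    constructor
    rintro y ⟨σ', τ', -, ρ, s, -, ρ', s', -, rfl⟩
    exact h1 _ _
  let B : ZFSet.{u} → ZFSet.{u} → ZFSet.{u} → Prop := fun x f p => ∃ σ τ, x = pair σ τ ∧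
    EqStep le p σ τ (fun q ρ ρ' => ∃ w, pair (pair ρ ρ') w ∈ f ∧ q ∈ w)
  have hB : ∀ (s t w : Env.{u} → ZFSet.{u}) [Tm M s] [Tm M t] [Tm M w],
      Df M (fun e => B (s e) (t e) (w e)) := fun s t w _ _ _ =>
    Df.subst3 (R := B) (by dsimp only [B, EqStep]; infer_instance) s t w
  have hF : Tm M (fun e => F (e 0)) := by
    refine @recursion M _ r hr (by dsimp only [r]; infer_instance) ?_ F
      (fun x f z => z ⊆ P ∧ ∀ p ∈ P, (p ∈ z ↔ B x f p)) _ ?_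
    · intro x hx
      obtain ⟨T, hT, h1, h2⟩ := exists_trans hx
      have hd : ∀ a b t, t ∈ T → pair a b ∈ t → a ∈ T := fun a b t ht h =>
        h1 _ (h1 _ (h1 _ ht h) (mem_insert _ _)) (mem_singleton.2 rfl)
      refine ⟨_, insert_mem hx (prod_mem hT hT), mem_insert _ _, ?_⟩
      rintro y hy z ⟨σ, τ, rfl, ρ, s, h3, ρ', s', h4, rfl⟩
      have : σ ∈ T ∧ τ ∈ T := by
        rcases mem_insert_iff.1 hy with h | h
        · rw [← h] at h2
          exact ⟨h1 _ (h1 _ h2 (mem_insert _ _)) (mem_singleton.2 rfl),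
            h1 _ (h1 _ h2 (mem_pair.2 (Or.inr rfl))) (mem_pair.2 (Or.inr rfl))⟩
        · exact pair_mem_prod.1 h
      exact mem_insert_of_mem _ (pair_mem_prod.2 ⟨hd _ _ _ this.1 h3, hd _ _ _ this.2 h4⟩)
    · intro x hx f hf Hf
      have key : ∀ p, B x f p ↔ ∃ σ τ, x = pair σ τ ∧ FEq le p σ τ := by
        intro p
        refine exists_congr fun σ => exists_congr fun τ => and_congr_right fun hx' => ?_
        rw [feq_iff]
        have h0 : ∀ q q0 ρ r ρ' r', pair q q0 ∈ le → pair ρ r ∈ σ → pair ρ' r' ∈ τ →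
            ((∃ w, pair (pair ρ ρ') w ∈ f ∧ q ∈ w) ↔ FEq le q ρ ρ') := by
          intro q q0 ρ s ρ' s' h1 h2 h3
          have h4 := Hf (pair ρ ρ') ⟨σ, τ, hx', ρ, s, h2, ρ', s', h3, rfl⟩
          constructor
          · rintro ⟨w, hw, hq⟩
            rw [(h4 w).1 hw] at hq
            obtain ⟨σ', τ', h5, h6⟩ := (mem_sep.1 hq).2
            obtain ⟨rfl, rfl⟩ := pair_inj.1 h5
            exact h6
          · intro h
            exact ⟨_, (h4 _).2 rfl, mem_sep.2 ⟨hP.left h1, ρ, ρ', rfl, h⟩⟩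
        exact ⟨EqStep.congr fun _ _ _ _ _ _ a b c => (h0 _ _ _ _ _ _ a b c).1,
          EqStep.congr fun _ _ _ _ _ _ a b c => (h0 _ _ _ _ _ _ a b c).2⟩
      have := InM.mk hx
      have := InM.mk hf
      constructor
      · convert sep_mem (fun p => B x f p) hPM using 1
        ext p
        simp only [F, mem_sep, key]
      · intro z _
        constructor
        · rintro ⟨h1, h2⟩
          ext p
          simp only [F, mem_sep, ← key]
          exact ⟨fun hp => ⟨h1 hp, (h2 p (h1 hp)).1 hp⟩, fun hp => (h2 p hp.1).2 hp.2⟩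
        · rintro rfl
          refine ⟨sep_subset, fun p hp => ?_⟩
          simp only [F, mem_sep, ← key, hp, true_and]
  have := hF.apply1 (fun e => pair (e 1) (e 2))
  refine (inferInstance : Df M (fun e => e 0 ∈ F (pair (e 1) (e 2)))).congr fun e _ => ?_
  simp only [F, mem_sep]
  refine and_congr_right fun _ => ⟨?_, fun h => ⟨_, _, rfl, h⟩⟩
  rintro ⟨σ, τ, h, h'⟩
  obtain ⟨rfl, rfl⟩ := pair_inj.1 h
  exact h'

theorem df_frc (hP : IsForcing P le) (hPM : P ∈ M) (hle : le ∈ M) (φ : Fml) :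
    Df M (fun e => e 0 ∈ P ∧ Frc M le φ (e 0) (fun i => e (i + 1))) := by
  have := InM.mk hPM
  have := InM.mk hle
  have hE : ∀ (s t w : Env.{u} → ZFSet.{u}) [Tm M s] [Tm M t] [Tm M w],
      Df M (fun e => s e ∈ P ∧ FEq le (s e) (t e) (w e)) := fun s t w _ _ _ =>
    Df.subst3 (R := fun a b c => a ∈ P ∧ FEq le a b c) (df_feq hP hPM hle) s t w
  induction φ with
  | mem i j =>
    refine (inferInstance : Df M (fun e => e 0 ∈ P ∧ ∀ q, pair q (e 0) ∈ le →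
      ∃ q', pair q' q ∈ le ∧ ∃ ρ r, pair ρ r ∈ e (j + 1) ∧ pair q' r ∈ le ∧
        (q' ∈ P ∧ FEq le q' (e (i + 1)) ρ))).congr fun e _ => and_congr_right fun _ => ?_
    refine forall_congr' fun q => forall_congr' fun _ => exists_congr fun q' =>
      and_congr_right fun h => ?_
    simp only [hP.left h, true_and]
  | eq i j => exact hE _ _ _
  | neg φ ih =>
    have h1 := ih.rename (fun i => if i = 0 then 0 else i + 1)
    have h2 : Df M (fun e => ∀ q, pair q (e 0) ∈ le →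
        ¬ (q ∈ P ∧ Frc M le φ q (fun i => e (i + 1)))) :=
      @Df.allFst _ _ _ _ _ _ _ (@Df.not _ _ h1)
    refine (@Df.and _ (fun e => e 0 ∈ P) _ _ h2).congr fun e _ => and_congr_right fun _ => ?_
    refine forall_congr' fun q => forall_congr' fun h => ?_
    simp only [hP.left h, true_and]
  | and φ ψ ih1 ih2 =>
    exact (@Df.and _ _ _ ih1 ih2).congr fun e _ => by simp only [Frc]; tauto
  | all φ ih =>
    have h1 := (ih.rename (fun i => if i = 0 then 1 else if i = 1 then 0 else i)).all'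
    refine h1.congr fun e _ => ?_
    have h2 : ∀ x, (fun i => cons x e (if i + 1 = 0 then 1 else if i + 1 = 1 then 0 else i + 1)) =
        cons x (fun i => e (i + 1)) := by
      intro x; funext i; cases i <;> simp
    simp only [h2, if_true, Frc]
    exact ⟨fun h => ⟨(h _ Trans.empty).1, fun x hx => (h x hx).2⟩, fun h x hx => ⟨h.1, h.2 x hx⟩⟩

omit hM in
theorem IsGeneric.nonempty (hP : IsForcing P le) (hPM : P ∈ M) (hH : IsGeneric M P le H) :
    ∃ p, p ∈ H := by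
  obtain ⟨q, -, h⟩ := hH.meets P hPM subset_rfl fun p hp => ⟨p, hp, hP.refl p hp⟩
  exact ⟨q, h⟩

/-- A generic filter meets every definable set that is dense below one of its members. -/
theorem IsGeneric.below (hP : IsForcing P le) (hPM : P ∈ M) (hle : le ∈ M)
    (hH : IsGeneric M P le H) (R : ZFSet.{u} → Prop) [hR : Df M (fun e => R (e 0))]
    {p : ZFSet.{u}} (hp : p ∈ H) (h : ∀ q, pair q p ∈ le → ∃ q', pair q' q ∈ le ∧ R q') :
    ∃ q ∈ H, R q := by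
  have := InM.mk hPM
  have := InM.mk hle
  have := InM.mk (mem_of_mem hPM (hH.subset hp))
  obtain ⟨q, hq, hqH⟩ := hH.meets _
    (sep_mem (fun q => R q ∨ ∀ s, pair s q ∈ le → ¬ pair s p ∈ le) hPM) sep_subset (by
      intro q hq
      by_cases h1 : ∀ s, pair s q ∈ le → ¬ pair s p ∈ le
      · exact ⟨q, mem_sep.2 ⟨hq, Or.inr h1⟩, hP.refl q hq⟩
      · push Not at h1
        obtain ⟨s, h1, h2⟩ := h1
        obtain ⟨q', h3, h4⟩ := h s h2
        exact ⟨q', mem_sep.2 ⟨hP.left h3, Or.inl h4⟩, hP.trans _ _ _ h3 h1⟩)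
  rcases (mem_sep.1 hq).2 with h1 | h1
  · exact ⟨q, hqH, h1⟩
  · obtain ⟨s, -, h2, h3⟩ := hH.directed q hqH p hp
    exact (h1 s h2 h3).elim

theorem truth_eq (hP : IsForcing P le) (hPM : P ∈ M) (hle : le ∈ M) (hH : IsGeneric M P le H)
    (σ : ZFSet.{u}) : σ ∈ M → ∀ τ ∈ M, (val H σ = val H τ ↔ ∃ p ∈ H, FEq le p σ τ) := by
  have := InM.mk hPM
  have := InM.mk hle
  have hE : ∀ (s t w : Env.{u} → ZFSet.{u}) [Tm M s] [Tm M t] [Tm M w],
      Df M (fun e => s e ∈ P ∧ FEq le (s e) (t e) (w e)) := fun s t w _ _ _ =>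
    Df.subst3 (R := fun a b c => a ∈ P ∧ FEq le a b c) (df_feq hP hPM hle) s t w
  induction σ using (InvImage.wf rank Ordinal.lt_wf).induction with
  | h σ ih =>
    intro hσ τ hτ
    have ih' : ∀ ρ r ρ' r', pair ρ r ∈ σ → pair ρ' r' ∈ τ →
        (val H ρ = val H ρ' ↔ ∃ p ∈ H, FEq le p ρ ρ') := fun ρ r ρ' r' h1 h2 =>
      ih ρ (rank_lt_of_pair_mem h1) (fst_mem hσ h1) ρ' (fst_mem hτ h2)
    have := InM.mk hσ
    have := InM.mk hτ
    constructor
    · intro hv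
      obtain ⟨p0, hp0⟩ := hH.nonempty hP hPM
      obtain ⟨p, hp, h⟩ := hH.below hP hPM hle (fun p => (p ∈ P ∧ FEq le p σ τ) ∨
        (∃ ρ r, pair ρ r ∈ σ ∧ pair p r ∈ le ∧ ∀ q', pair q' p ∈ le →
          ∀ ρ' r', pair ρ' r' ∈ τ → pair q' r' ∈ le → ¬ (q' ∈ P ∧ FEq le q' ρ ρ')) ∨
        (∃ ρ' r', pair ρ' r' ∈ τ ∧ pair p r' ∈ le ∧ ∀ q', pair q' p ∈ le →
          ∀ ρ r, pair ρ r ∈ σ → pair q' r ∈ le → ¬ (q' ∈ P ∧ FEq le q' ρ ρ'))) hp0 (by
          intro q hq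
          by_cases h : FEq le q σ τ
          · exact ⟨q, hP.rfl' hq, Or.inl ⟨hP.left hq, h⟩⟩
          rw [feq_iff, EqStep, not_and_or] at h
          rcases h with h | h
          · push Not at h
            obtain ⟨ρ, r, h1, q', h2, h3, h4⟩ := h
            exact ⟨q', h2, Or.inr (Or.inl ⟨ρ, r, h1, h3, fun s h5 ρ' r' h6 h7 h8 =>
              h4 s h5 ρ' r' h6 h7 h8.2⟩)⟩
          · push Not at h
            obtain ⟨ρ, r, h1, q', h2, h3, h4⟩ := h
            exact ⟨q', h2, Or.inr (Or.inr ⟨ρ, r, h1, h3, fun s h5 ρ' r' h6 h7 h8 =>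
              h4 s h5 ρ' r' h6 h7 h8.2⟩)⟩)
      rcases h with h | ⟨ρ, r, h1, h2, h3⟩ | ⟨ρ', r', h1, h2, h3⟩
      · exact ⟨p, hp, h.2⟩
      · exfalso
        have : val H ρ ∈ val H τ := hv ▸ mem_val.2 ⟨ρ, r, hH.upward _ _ hp h2, h1, rfl⟩
        obtain ⟨ρ', r', h4, h5, h6⟩ := mem_val.1 this
        obtain ⟨s, hs, h7⟩ := (ih' ρ r ρ' r' h1 h5).1 h6.symm
        obtain ⟨s1, hs1, h8, h9⟩ := hH.directed p hp r' h4
        obtain ⟨s2, -, h10, h11⟩ := hH.directed s1 hs1 s hs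
        exact h3 s2 (hP.trans _ _ _ h10 h8) ρ' r' h5 (hP.trans _ _ _ h10 h9)
          ⟨hP.left h10, h7.mono hP h11⟩
      · exfalso
        have : val H ρ' ∈ val H σ := hv ▸ mem_val.2 ⟨ρ', r', hH.upward _ _ hp h2, h1, rfl⟩
        obtain ⟨ρ, r, h4, h5, h6⟩ := mem_val.1 this
        obtain ⟨s, hs, h7⟩ := (ih' ρ r ρ' r' h5 h1).1 h6
        obtain ⟨s1, hs1, h8, h9⟩ := hH.directed p hp r h4
        obtain ⟨s2, -, h10, h11⟩ := hH.directed s1 hs1 s hs
        exact h3 s2 (hP.trans _ _ _ h10 h8) ρ r h5 (hP.trans _ _ _ h10 h9)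
          ⟨hP.left h10, h7.mono hP h11⟩
    · rintro ⟨p, hp, h⟩
      rw [feq_iff] at h
      ext x
      constructor
      · intro hx
        obtain ⟨ρ, r, h1, h2, rfl⟩ := mem_val.1 hx
        obtain ⟨q, hq, h3, h4⟩ := hH.directed p hp r h1
        have := InM.mk (fst_mem hσ h2)
        obtain ⟨q', hq', ρ', r', h5, h6, h7⟩ := hH.below hP hPM hle (fun q' =>
          ∃ ρ' r', pair ρ' r' ∈ τ ∧ pair q' r' ∈ le ∧ (q' ∈ P ∧ FEq le q' ρ ρ')) hq (by
            intro s hs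
            obtain ⟨q', h5, ρ', r', h6, h7, h8⟩ :=
              h.1 ρ r h2 s (hP.trans _ _ _ hs h3) (hP.trans _ _ _ hs h4)
            exact ⟨q', h5, ρ', r', h6, h7, hP.left h5, h8⟩)
        exact mem_val.2 ⟨ρ', r', hH.upward _ _ hq' h6, h5,
          ((ih' ρ r ρ' r' h2 h5).2 ⟨q', hq', h7.2⟩).symm⟩
      · intro hx
        obtain ⟨ρ', r', h1, h2, rfl⟩ := mem_val.1 hx
        obtain ⟨q, hq, h3, h4⟩ := hH.directed p hp r' h1
        have := InM.mk (fst_mem hτ h2)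
        obtain ⟨q', hq', ρ, r, h5, h6, h7⟩ := hH.below hP hPM hle (fun q' =>
          ∃ ρ r, pair ρ r ∈ σ ∧ pair q' r ∈ le ∧ (q' ∈ P ∧ FEq le q' ρ ρ')) hq (by
            intro s hs
            obtain ⟨q', h5, ρ, r, h6, h7, h8⟩ :=
              h.2 ρ' r' h2 s (hP.trans _ _ _ hs h3) (hP.trans _ _ _ hs h4)
            exact ⟨q', h5, ρ, r, h6, h7, hP.left h5, h8⟩)
        exact mem_val.2 ⟨ρ, r, hH.upward _ _ hq' h6, h5,
          (ih' ρ r ρ' r' h5 h2).2 ⟨q', hq', h7.2⟩⟩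

theorem truth_mem (hP : IsForcing P le) (hPM : P ∈ M) (hle : le ∈ M) (hH : IsGeneric M P le H)
    {σ τ : ZFSet.{u}} (hσ : σ ∈ M) (hτ : τ ∈ M) :
    val H σ ∈ val H τ ↔ ∃ p ∈ H, FMem le p σ τ := by
  have := InM.mk hPM
  have := InM.mk hle
  have hE : ∀ (s t w : Env.{u} → ZFSet.{u}) [Tm M s] [Tm M t] [Tm M w],
      Df M (fun e => s e ∈ P ∧ FEq le (s e) (t e) (w e)) := fun s t w _ _ _ =>
    Df.subst3 (R := fun a b c => a ∈ P ∧ FEq le a b c) (df_feq hP hPM hle) s t w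
  have := InM.mk hσ
  have := InM.mk hτ
  constructor
  · intro h
    obtain ⟨ρ, r, h1, h2, h3⟩ := mem_val.1 h
    obtain ⟨s, hs, h4⟩ := (truth_eq hP hPM hle hH σ hσ ρ (fst_mem hτ h2)).1 h3.symm
    obtain ⟨p, hp, h5, h6⟩ := hH.directed r h1 s hs
    exact ⟨p, hp, fun q hq => ⟨q, hP.rfl' hq, ρ, r, h2, hP.trans _ _ _ hq h5,
      h4.mono hP (hP.trans _ _ _ hq h6)⟩⟩
  · rintro ⟨p, hp, h⟩
    obtain ⟨q', hq', ρ, r, h5, h6, h7⟩ := hH.below hP hPM hle (fun q' =>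
      ∃ ρ r, pair ρ r ∈ τ ∧ pair q' r ∈ le ∧ (q' ∈ P ∧ FEq le q' σ ρ)) hp (by
        intro s hs
        obtain ⟨q', h5, ρ, r, h6, h7, h8⟩ := h s hs
        exact ⟨q', h5, ρ, r, h6, h7, hP.left h5, h8⟩)
    exact mem_val.2 ⟨ρ, r, hH.upward _ _ hq' h6, h5,
      ((truth_eq hP hPM hle hH σ hσ ρ (fst_mem hτ h5)).2 ⟨q', hq', h7.2⟩).symm⟩

omit hM in
theorem val_cons (H σ : ZFSet.{u}) (e : Env.{u}) :
    (fun i => val H (cons σ e i)) = cons (val H σ) (fun i => val H (e i)) := by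
  funext i; cases i <;> rfl

/-- Definability of forcing with a fixed tail of names and `k ≤ 2` further names. -/
theorem df_frc_env (hP : IsForcing P le) (hPM : P ∈ M) (hle : le ∈ M) (φ : Fml) {ε : Env.{u}}
    (hε : ∀ i, ε i ∈ M) :
    Df M (fun e => e 0 ∈ P ∧ Frc M le φ (e 0) (cons (e 1) (cons (e 2) ε))) := by
  obtain ⟨ψ, p, hp, h⟩ := (df_frc hP hPM hle φ).out
  refine ⟨ψ.rename (fun i => if i % 2 = 0 then (if i ≤ 4 then i else 2 * (i - 6) + 1)
    else 2 * i + 1), mix ε p, mix_mem hε hp, fun e he => ?_⟩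
  rw [sat_rename]
  have h1 := h (cons (e 0) (cons (e 1) (cons (e 2) ε)))
    (cons_mem (he 0) (cons_mem (he 1) (cons_mem (he 2) hε)))
  have h2 : (fun i => mix e (mix ε p) (if i % 2 = 0 then (if i ≤ 4 then i else 2 * (i - 6) + 1)
      else 2 * i + 1)) = mix (cons (e 0) (cons (e 1) (cons (e 2) ε))) p := by
    funext i
    by_cases hi : i % 2 = 0
    · rw [if_pos hi]
      obtain ⟨k, rfl⟩ : ∃ k, i = 2 * k := ⟨i / 2, by omega⟩
      rw [mix_even]
      by_cases h4 : 2 * k ≤ 4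
      · rw [if_pos h4, mix_even]
        have : k = 0 ∨ k = 1 ∨ k = 2 := by omega
        rcases this with rfl | rfl | rfl <;> rfl
      · rw [if_neg h4, mix_odd]
        obtain ⟨l, rfl⟩ : ∃ l, k = l + 1 + 1 + 1 := ⟨k - 3, by omega⟩
        rw [show 2 * (l + 1 + 1 + 1) - 6 = 2 * l by omega, mix_even]
        rfl
    · rw [if_neg hi, mix_odd]; simp [mix, hi]
  rw [h2]
  exact h1

omit hM in
theorem frc_rename (φ : Fml) : ∀ (f : ℕ → ℕ) (p : ZFSet.{u}) (e : Env.{u}),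
    Frc M le (φ.rename f) p e ↔ Frc M le φ p (fun i => e (f i)) := by
  induction φ with
  | mem i j => intro f p e; rfl
  | eq i j => intro f p e; rfl
  | neg φ ih => intro f p e; simp only [Fml.rename, Frc, ih]
  | and φ ψ ih1 ih2 => intro f p e; simp only [Fml.rename, Frc, ih1, ih2]
  | all φ ih =>
    intro f p e
    simp only [Fml.rename, Frc, ih]
    refine forall_congr' fun x => forall_congr' fun _ => ?_
    have : (fun i => cons x e (up f i)) = cons x (fun i => e (f i)) := by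
      funext i; cases i <;> rfl
    rw [this]

theorem df_frc_env1 (hP : IsForcing P le) (hPM : P ∈ M) (hle : le ∈ M) (φ : Fml) {ε : Env.{u}}
    (hε : ∀ i, ε i ∈ M) :
    Df M (fun e => e 0 ∈ P ∧ Frc M le φ (e 0) (cons (e 1) ε)) := by
  refine (df_frc_env hP hPM hle (φ.rename (up (· + 1))) hε).congr fun e _ => ?_
  rw [frc_rename]
  have : (fun i => cons (e 1) (cons (e 2) ε) (up (· + 1) i)) = cons (e 1) ε := by
    funext i; cases i <;> rfl
  rw [this]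

theorem df_frc_env0 (hP : IsForcing P le) (hPM : P ∈ M) (hle : le ∈ M) (φ : Fml) {ε : Env.{u}}
    (hε : ∀ i, ε i ∈ M) : Df M (fun e => e 0 ∈ P ∧ Frc M le φ (e 0) ε) := by
  refine (df_frc_env1 hP hPM hle (φ.rename (· + 1)) hε).congr fun e _ => ?_
  rw [frc_rename]
  rfl

/-- The truth lemma. -/
theorem truth (hP : IsForcing P le) (hPM : P ∈ M) (hle : le ∈ M) (hH : IsGeneric M P le H)
    (φ : Fml) : ∀ e : Env.{u}, (∀ i, e i ∈ M) →
      (Sat (genericExt M H) φ (fun i => val H (e i)) ↔ ∃ p ∈ H, Frc M le φ p e) := by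
  obtain ⟨p0, hp0⟩ := hH.nonempty hP hPM
  induction φ with
  | mem i j => exact fun e he => truth_mem hP hPM hle hH (he i) (he j)
  | eq i j => exact fun e he => truth_eq hP hPM hle hH _ (he i) _ (he j)
  | neg φ ih =>
    intro e he
    simp only [Sat, ih e he]
    constructor
    · intro h
      have h1 := df_frc_env0 hP hPM hle φ he
      have h2 := df_frc_env0 hP hPM hle (.neg φ) he
      obtain ⟨p, hp, h3⟩ := hH.below hP hPM hle
        (fun p => (p ∈ P ∧ Frc M le φ p e) ∨ (p ∈ P ∧ Frc M le (.neg φ) p e))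
        (hR := @Df.or _ _ _ h1 h2) hp0 (by
          intro q hq
          by_cases h3 : Frc M le (.neg φ) q e
          · exact ⟨q, hP.rfl' hq, Or.inr ⟨hP.left hq, h3⟩⟩
          · simp only [Frc] at h3
            push Not at h3
            obtain ⟨q', h3, h4⟩ := h3
            exact ⟨q', h3, Or.inl ⟨hP.left h3, h4⟩⟩)
      rcases h3 with h3 | h3
      · exact (h ⟨p, hp, h3.2⟩).elim
      · exact ⟨p, hp, h3.2⟩
    · rintro ⟨p, hp, h1⟩ ⟨q, hq, h2⟩
      obtain ⟨r, -, h3, h4⟩ := hH.directed p hp q hq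
      exact h1 r h3 (Frc.mono hP φ h2 h4)
  | and φ ψ ih1 ih2 =>
    intro e he
    simp only [Sat, ih1 e he, ih2 e he]
    constructor
    · rintro ⟨⟨p, hp, h1⟩, q, hq, h2⟩
      obtain ⟨r, hr, h3, h4⟩ := hH.directed p hp q hq
      exact ⟨r, hr, Frc.mono hP φ h1 h3, Frc.mono hP ψ h2 h4⟩
    · rintro ⟨p, hp, h1, h2⟩
      exact ⟨⟨p, hp, h1⟩, p, hp, h2⟩
  | all φ ih =>
    intro e he
    simp only [Sat]
    constructor
    · intro h
      have h1 := df_frc_env0 hP hPM hle (.all φ) he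
      have h2 : Df M (fun e' => ∃ σ ∈ M, e' 0 ∈ P ∧ Frc M le (.neg φ) (e' 0) (cons σ e)) :=
        @Df.exM _ _ (Df.subst2 (R := fun a b => a ∈ P ∧ Frc M le (.neg φ) a (cons b e))
          (df_frc_env1 hP hPM hle (.neg φ) he) (fun e => e 1) (fun e => e 0))
      obtain ⟨p, hp, h3⟩ := hH.below hP hPM hle
        (fun p => (p ∈ P ∧ Frc M le (.all φ) p e) ∨
          ∃ σ ∈ M, p ∈ P ∧ Frc M le (.neg φ) p (cons σ e))
        (hR := @Df.or _ _ _ h1 h2) hp0 (by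
          intro q hq
          by_cases h3 : Frc M le (.all φ) q e
          · exact ⟨q, hP.rfl' hq, Or.inl ⟨hP.left hq, h3⟩⟩
          · simp only [Frc] at h3
            push Not at h3
            obtain ⟨σ, hσ, h3⟩ := h3
            have h4 := mt (Frc.dense hP φ) h3
            push Not at h4
            obtain ⟨q', h4, h5⟩ := h4
            exact ⟨q', h4, Or.inr ⟨σ, hσ, hP.left h4, h5⟩⟩)
      rcases h3 with h3 | ⟨σ, hσ, -, h3⟩
      · exact ⟨p, hp, h3.2⟩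
      · exfalso
        have h4 := h _ ⟨σ, hσ, rfl⟩
        rw [← val_cons, ih _ (cons_mem hσ he)] at h4
        obtain ⟨q, hq, h4⟩ := h4
        obtain ⟨r, -, h5, h6⟩ := hH.directed p hp q hq
        exact h3 r h5 (Frc.mono hP φ h4 h6)
    · rintro ⟨p, hp, h⟩ _ ⟨σ, hσ, rfl⟩
      rw [← val_cons, ih _ (cons_mem hσ he)]
      exact ⟨p, hp, h σ hσ⟩

end

end Pool.Agent.Lib.Forcing
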