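import Pool.Agent.Lib.Forcing.Definable

/-!
Basic set theory inside a transitive model of ZF minus Power Set: closure properties, transitive
closures, the recursion theorem, rank, and Collection (with Power Set).
-/

universe u

namespace Pool.Agent.Lib.Forcing

open ZFSet

/-- Transitive models of ZF without Power Set. -/
class ZFm (M : Set ZFSet.{u}) : Prop extends Trans M where
  pairing : ∀ x ∈ M, ∀ y ∈ M, ({x, y} : ZFSet.{u}) ∈ M
  union : ∀ x ∈ M, (⋃₀ x : ZFSet.{u}) ∈ M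
  infinity : omega ∈ M
  separation : ∀ (φ : Fml) (e : ℕ → ZFSet.{u}), (∀ i, e i ∈ M) → ∀ a ∈ M,
    a.sep (fun x => Sat M φ (cons x e)) ∈ M
  replacement : ∀ (φ : Fml) (e : ℕ → ZFSet.{u}), (∀ i, e i ∈ M) → ∀ a ∈ M,
    (∀ x ∈ a, ∃! y, y ∈ M ∧ Sat M φ (cons y (cons x e))) →
    ∃ b ∈ M, ∀ x ∈ a, ∃ y ∈ b, Sat M φ (cons y (cons x e))

variable {M : Set ZFSet.{u}}

theorem IsZFModel.zfm (h : IsZFModel M) : ZFm M where
  trans := h.transitive
  empty := h.transitive _ h.infinity _ omega_zero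
  pairing := h.pairing
  union := h.union
  infinity := h.infinity
  separation := h.separation
  replacement := h.replacement

def lift1 (i : ℕ) : ℕ := if i % 2 = 0 then (if i = 0 then 0 else i - 1) else i + 1

theorem mix_cons (x : ZFSet.{u}) (e p : Env.{u}) :
    (fun i => cons x (mix e p) (lift1 i)) = mix (cons x e) p := by
  funext i
  unfold lift1
  by_cases hi : i % 2 = 0
  · rw [if_pos hi]
    by_cases h0 : i = 0
    · subst h0; rfl
    · rw [if_neg h0]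
      obtain ⟨k, rfl⟩ : ∃ k, i = 2 * (k + 1) := ⟨i / 2 - 1, by omega⟩
      rw [mix_even, show 2 * (k + 1) - 1 = 2 * k + 1 by omega, cons_succ, cons_succ, mix_even]
  · rw [if_neg hi, cons_succ]; simp [mix, hi]

/-- A definable unary predicate is given by a formula and an assignment. -/
theorem Df.exists_fml1 [Trans M] {R : ZFSet.{u} → Prop} (h : Df M (fun e => R (e 0))) :
    ∃ (φ : Fml) (p : Env.{u}), (∀ i, p i ∈ M) ∧ ∀ x ∈ M, (R x ↔ Sat M φ (cons x p)) := by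
  obtain ⟨φ, p, hp, h⟩ := h.out
  have h0 : ∀ i : ℕ, (fun _ => (∅ : ZFSet.{u})) i ∈ M := fun _ => Trans.empty
  refine ⟨φ.rename lift1, mix (fun _ => ∅) p, mix_mem h0 hp, fun x hx => ?_⟩
  rw [sat_rename, mix_cons]
  exact h (cons x fun _ => ∅) (cons_mem hx h0)

theorem Df.exists_fml2 [Trans M] {R : ZFSet.{u} → ZFSet.{u} → Prop}
    (h : Df M (fun e => R (e 0) (e 1))) :
    ∃ (φ : Fml) (p : Env.{u}), (∀ i, p i ∈ M) ∧
      ∀ x ∈ M, ∀ y ∈ M, (R y x ↔ Sat M φ (cons y (cons x p))) := by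
  obtain ⟨φ, p, hp, h⟩ := h.out
  have h0 : ∀ i : ℕ, (fun _ => (∅ : ZFSet.{u})) i ∈ M := fun _ => Trans.empty
  refine ⟨(φ.rename lift1).rename (up lift1), mix (fun _ => ∅) p, mix_mem h0 hp,
    fun x hx y hy => ?_⟩
  rw [sat_rename, sat_rename]
  have : (fun i => cons y (cons x (mix (fun _ => ∅) p)) (up lift1 (lift1 i))) =
      mix (cons y (cons x fun _ => ∅)) p := by
    rw [← mix_cons, ← mix_cons]
    funext i
    cases lift1 i <;> rfl
  rw [this]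
  exact h (cons y (cons x fun _ => ∅)) (cons_mem hy (cons_mem hx h0))

section
variable [hM : ZFm M]

theorem sep_mem (R : ZFSet.{u} → Prop) [h : Df M (fun e => R (e 0))] {a : ZFSet.{u}}
    (ha : a ∈ M) : a.sep R ∈ M := by
  obtain ⟨φ, p, hp, h⟩ := h.exists_fml1
  convert hM.separation φ p hp a ha using 1
  ext x
  simp only [mem_sep]
  exact and_congr_right fun hx => h x (mem_of_mem ha hx)

theorem exists_repl (R : ZFSet.{u} → ZFSet.{u} → Prop) [h : Df M (fun e => R (e 0) (e 1))]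
    {a : ZFSet.{u}} (ha : a ∈ M) (H : ∀ x ∈ a, ∃! y, y ∈ M ∧ R y x) :
    ∃ b ∈ M, ∀ x ∈ a, ∃ y ∈ b, R y x := by
  obtain ⟨φ, p, hp, h⟩ := h.exists_fml2
  obtain ⟨b, hb, H'⟩ := hM.replacement φ p hp a ha (fun x hx => by
    refine (existsUnique_congr fun y => and_congr_right fun hy => ?_).1 (H x hx)
    exact h x (mem_of_mem ha hx) y hy)
  refine ⟨b, hb, fun x hx => ?_⟩
  obtain ⟨y, hy, h'⟩ := H' x hx
  exact ⟨y, hy, (h x (mem_of_mem ha hx) y (mem_of_mem hb hy)).2 h'⟩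

/-- The image of a set under a function that is definable on it. -/
theorem exists_image (F : ZFSet.{u} → ZFSet.{u}) (R : ZFSet.{u} → ZFSet.{u} → Prop)
    [h : Df M (fun e => R (e 0) (e 1))] {a : ZFSet.{u}} (ha : a ∈ M)
    (H1 : ∀ x ∈ a, F x ∈ M) (H2 : ∀ x ∈ a, ∀ y ∈ M, (R y x ↔ y = F x)) :
    ∃ b ∈ M, ∀ y, y ∈ b ↔ ∃ x ∈ a, F x = y := by
  obtain ⟨b, hb, H⟩ := exists_repl R ha (fun x hx =>
    ⟨F x, ⟨H1 x hx, (H2 x hx _ (H1 x hx)).2 rfl⟩, fun y hy => (H2 x hx y hy.1).1 hy.2⟩)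
  have := InM.mk ha
  have h' : Df M (fun e => R (e 1) (e 0)) := Df.subst2 h _ _
  have h'' : Df M (fun e => ∃ x ∈ a, R (e 0) x) := @Df.exIn _ _ _ _ _ h'
  refine ⟨b.sep (fun y => ∃ x ∈ a, R y x), sep_mem _ hb, fun y => ?_⟩
  rw [mem_sep]
  constructor
  · rintro ⟨hy, x, hx, hR⟩
    exact ⟨x, hx, ((H2 x hx y (mem_of_mem hb hy)).1 hR).symm⟩
  · rintro ⟨x, hx, rfl⟩
    obtain ⟨y, hy, hR⟩ := H x hx
    obtain rfl := (H2 x hx y (mem_of_mem hb hy)).1 hR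
    exact ⟨hy, x, hx, hR⟩

theorem exists_image_tm (F : ZFSet.{u} → ZFSet.{u}) [h : Tm M (fun e => F (e 0))]
    {a : ZFSet.{u}} (ha : a ∈ M) : ∃ b ∈ M, ∀ y, y ∈ b ↔ ∃ x ∈ a, F x = y :=
  haveI : Df M (fun e => e 0 = F (e 1)) := h.df
  exists_image F (fun y x => y = F x) ha
    (fun x hx => h.mem (fun _ => x) fun _ => mem_of_mem ha hx) (fun _ _ _ _ => Iff.rfl)

theorem upair_mem {x y : ZFSet.{u}} (hx : x ∈ M) (hy : y ∈ M) : ({x, y} : ZFSet.{u}) ∈ M :=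
  hM.pairing x hx y hy

theorem singleton_mem {x : ZFSet.{u}} (hx : x ∈ M) : ({x} : ZFSet.{u}) ∈ M := by
  simpa using upair_mem hx hx

theorem sUnion_mem {x : ZFSet.{u}} (hx : x ∈ M) : (⋃₀ x : ZFSet.{u}) ∈ M := hM.union x hx

theorem union_mem {x y : ZFSet.{u}} (hx : x ∈ M) (hy : y ∈ M) : x ∪ y ∈ M :=
  sUnion_mem (upair_mem hx hy)

theorem insert_mem {x y : ZFSet.{u}} (hx : x ∈ M) (hy : y ∈ M) : insert x y ∈ M := by
  rw [ZFSet.insert_eq]; exact union_mem (singleton_mem hx) hy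

theorem pair_mem {x y : ZFSet.{u}} (hx : x ∈ M) (hy : y ∈ M) : pair x y ∈ M :=
  upair_mem (singleton_mem hx) (upair_mem hx hy)

theorem omega_mem : (omega : ZFSet.{u}) ∈ M := hM.infinity

instance InM.omega : InM M omega := ⟨omega_mem⟩

instance Tm.singleton {s : Env.{u} → ZFSet.{u}} [Tm M s] :
    Tm M (fun e => ({s e} : ZFSet.{u})) :=
  Tm.comp1 (F := fun a => ({a} : ZFSet.{u})) (fun _ => singleton_mem)
    ((inferInstance : Df M (fun e => e 1 ∈ e 0 ∧ ∀ z ∈ e 0, z = e 1)).congr fun e _ => by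
      constructor
      · rintro ⟨h1, h2⟩
        ext z
        rw [mem_singleton]
        exact ⟨h2 z, fun h => h ▸ h1⟩
      · intro h; rw [h]; simp) s

instance Tm.insert {s t : Env.{u} → ZFSet.{u}} [Tm M s] [Tm M t] :
    Tm M (fun e => (insert (s e) (t e) : ZFSet.{u})) :=
  Tm.comp2 (F := fun a b => (Insert.insert a b : ZFSet.{u})) (fun _ ha _ hb => insert_mem ha hb)
    ((inferInstance : Df M (fun e => e 1 ∈ e 0 ∧ e 2 ⊆ e 0 ∧
      ∀ z ∈ e 0, z = e 1 ∨ z ∈ e 2)).congr fun e _ => by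
      constructor
      · rintro ⟨h1, h2, h3⟩
        ext z
        rw [mem_insert_iff]
        exact ⟨h3 z, fun h => h.elim (fun h => h ▸ h1) (fun h => h2 h)⟩
      · intro h; rw [h]
        exact ⟨mem_insert _ _, fun z hz => mem_insert_of_mem _ hz, fun z hz => mem_insert_iff.1 hz⟩)
    s t

instance Tm.pair {s t : Env.{u} → ZFSet.{u}} [Tm M s] [Tm M t] :
    Tm M (fun e => pair (s e) (t e)) :=
  (inferInstance : Tm M (fun e => ({{s e}, {s e, t e}} : ZFSet.{u})))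

instance Tm.sUnion {s : Env.{u} → ZFSet.{u}} [Tm M s] :
    Tm M (fun e => (⋃₀ (s e) : ZFSet.{u})) :=
  Tm.comp1 (F := fun a => (⋃₀ a : ZFSet.{u})) (fun _ => sUnion_mem)
    ((inferInstance : Df M (fun e => (∀ z ∈ e 0, ∃ w ∈ e 1, z ∈ w) ∧
        ∀ w ∈ e 1, w ⊆ e 0)).congr fun e _ => by
      constructor
      · rintro ⟨h1, h2⟩
        ext z
        rw [mem_sUnion]
        exact ⟨h1 z, fun ⟨w, hw, hz⟩ => h2 w hw hz⟩
      · intro h; rw [h]
        exact ⟨fun z hz => mem_sUnion.1 hz, fun w hw z hz => mem_sUnion.2 ⟨w, hw, hz⟩⟩) s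

instance Df.allPair {t : Env.{u} → ZFSet.{u}} [ht : Tm M t]
    {R : ZFSet.{u} → ZFSet.{u} → Env.{u} → Prop}
    [Df M (fun e => R (e 1) (e 0) (fun i => e (i + 1 + 1)))] :
    Df M (fun e => ∀ a b, pair a b ∈ t e → R a b e) :=
  have := ht.shift.shift
  (inferInstance : Df M (fun e => ∀ a ∈ M, ∀ b ∈ M, pair a b ∈ t e → R a b e)).congr fun e he =>
    ⟨fun H a b h => H a (fst_mem (ht.mem e he) h) b (snd_mem (ht.mem e he) h) h,
      fun H a _ b _ h => H a b h⟩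

instance Df.exPair {t : Env.{u} → ZFSet.{u}} [ht : Tm M t]
    {R : ZFSet.{u} → ZFSet.{u} → Env.{u} → Prop}
    [Df M (fun e => R (e 1) (e 0) (fun i => e (i + 1 + 1)))] :
    Df M (fun e => ∃ a b, pair a b ∈ t e ∧ R a b e) :=
  (inferInstance : Df M (fun e => ¬ ∀ a b, pair a b ∈ t e → ¬ R a b e)).congr
    fun _ _ => by push Not; rfl

instance Df.allSnd {s t : Env.{u} → ZFSet.{u}} [hs : Tm M s] [ht : Tm M t]
    {R : ZFSet.{u} → Env.{u} → Prop}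
    [Df M (fun e => R (e 0) (fun i => e (i + 1)))] :
    Df M (fun e => ∀ b, pair (s e) b ∈ t e → R b e) :=
  have := ht.shift
  have := hs.shift
  (inferInstance : Df M (fun e => ∀ b ∈ M, pair (s e) b ∈ t e → R b e)).congr fun e he =>
    ⟨fun H b h => H b (snd_mem (ht.mem e he) h) h, fun H b _ h => H b h⟩

instance Df.exSnd {s t : Env.{u} → ZFSet.{u}} [hs : Tm M s] [ht : Tm M t]
    {R : ZFSet.{u} → Env.{u} → Prop}
    [Df M (fun e => R (e 0) (fun i => e (i + 1)))] :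
    Df M (fun e => ∃ b, pair (s e) b ∈ t e ∧ R b e) :=
  (inferInstance : Df M (fun e => ¬ ∀ b, pair (s e) b ∈ t e → ¬ R b e)).congr
    fun _ _ => by push Not; rfl

instance Df.allFst {s t : Env.{u} → ZFSet.{u}} [hs : Tm M s] [ht : Tm M t]
    {R : ZFSet.{u} → Env.{u} → Prop}
    [Df M (fun e => R (e 0) (fun i => e (i + 1)))] :
    Df M (fun e => ∀ a, pair a (s e) ∈ t e → R a e) :=
  have := ht.shift
  have := hs.shift
  (inferInstance : Df M (fun e => ∀ a ∈ M, pair a (s e) ∈ t e → R a e)).congr fun e he =>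
    ⟨fun H a h => H a (fst_mem (ht.mem e he) h) h, fun H a _ h => H a h⟩

instance Df.exFst {s t : Env.{u} → ZFSet.{u}} [hs : Tm M s] [ht : Tm M t]
    {R : ZFSet.{u} → Env.{u} → Prop}
    [Df M (fun e => R (e 0) (fun i => e (i + 1)))] :
    Df M (fun e => ∃ a, pair a (s e) ∈ t e ∧ R a e) :=
  (inferInstance : Df M (fun e => ¬ ∀ a, pair a (s e) ∈ t e → ¬ R a e)).congr
    fun _ _ => by push Not; rfl

/-- `∃ a b, t = (a, b) ∧ R a b` -/
instance Df.exEqPair {t : Env.{u} → ZFSet.{u}} [ht : Tm M t]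
    {R : ZFSet.{u} → ZFSet.{u} → Env.{u} → Prop}
    [Df M (fun e => R (e 1) (e 0) (fun i => e (i + 1 + 1)))] :
    Df M (fun e => ∃ a b, t e = pair a b ∧ R a b e) :=
  (inferInstance : Df M (fun e => ∃ a b, pair a b ∈ ({t e} : ZFSet.{u}) ∧ R a b e)).congr
    fun _ _ => by simp only [mem_singleton, eq_comm]

theorem prod_mem {x y : ZFSet.{u}} (hx : x ∈ M) (hy : y ∈ M) : x.prod y ∈ M := by
  have := InM.mk hy
  have h1 : ∀ a ∈ x, ({a} : ZFSet.{u}).prod y ∈ M := by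
    intro a ha
    have := InM.mk (mem_of_mem hx ha)
    obtain ⟨b, hb, H⟩ := exists_image_tm (M := M) (fun z => pair a z) hy
    convert hb using 1
    ext z
    rw [H, mem_prod]
    simp [eq_comm]
  obtain ⟨b, hb, H⟩ := exists_image (fun a => ({a} : ZFSet.{u}).prod y)
    (fun w a => (∀ z ∈ w, ∃ c ∈ y, z = pair a c) ∧ ∀ c ∈ y, pair a c ∈ w) hx h1 (by
      intro a _ w _
      constructor
      · rintro ⟨h2, h3⟩
        ext z
        rw [mem_prod]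
        constructor
        · intro hz
          obtain ⟨c, hc, rfl⟩ := h2 z hz
          exact ⟨a, mem_singleton.2 rfl, c, hc, rfl⟩
        · rintro ⟨a', ha', c, hc, rfl⟩
          rw [mem_singleton.1 ha']; exact h3 c hc
      · rintro rfl
        refine ⟨fun z hz => ?_, fun c hc => pair_mem_prod.2 ⟨mem_singleton.2 rfl, hc⟩⟩
        obtain ⟨a', ha', c, hc, rfl⟩ := mem_prod.1 hz
        exact ⟨c, hc, by rw [mem_singleton.1 ha']⟩)
  convert sUnion_mem hb using 1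
  ext z
  rw [mem_sUnion, mem_prod]
  constructor
  · rintro ⟨a, ha, c, hc, rfl⟩
    exact ⟨_, (H _).2 ⟨a, ha, rfl⟩, pair_mem_prod.2 ⟨mem_singleton.2 rfl, hc⟩⟩
  · rintro ⟨w, hw, hz⟩
    obtain ⟨a, ha, rfl⟩ := (H w).1 hw
    obtain ⟨a', ha', c, hc, rfl⟩ := mem_prod.1 hz
    exact ⟨a', mem_singleton.1 ha' ▸ ha, c, hc, rfl⟩

/-- A definable set of pairs. -/
theorem exists_pairSep (R : ZFSet.{u} → ZFSet.{u} → Prop) [h : Df M (fun e => R (e 1) (e 0))]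
    {x y : ZFSet.{u}} (hx : x ∈ M) (hy : y ∈ M) :
    ∃ S ∈ M, S ⊆ x.prod y ∧ ∀ a b, pair a b ∈ S ↔ a ∈ x ∧ b ∈ y ∧ R a b := by
  have h' : Df M (fun e => ∃ a b, e 0 = pair a b ∧ R a b) := @Df.exEqPair _ _ _ _ _ h
  refine ⟨(x.prod y).sep (fun z => ∃ a b, z = pair a b ∧ R a b), sep_mem _ (prod_mem hx hy),
    sep_subset, fun a b => ?_⟩
  rw [mem_sep, pair_mem_prod]
  constructor
  · rintro ⟨⟨h1, h2⟩, a', b', he, hR⟩
    obtain ⟨rfl, rfl⟩ := pair_inj.1 he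
    exact ⟨h1, h2, hR⟩
  · rintro ⟨h1, h2, hR⟩
    exact ⟨⟨h1, h2⟩, a, b, rfl, hR⟩

/-- Every element of `M` lies in a transitive element of `M`. -/
theorem exists_trans {x : ZFSet.{u}} (hx : x ∈ M) : ∃ T ∈ M, T.IsTransitive ∧ x ∈ T := by
  have key : ∀ x : ZFSet.{u}, x ∈ M → ∃ T ∈ M, T.IsTransitive ∧ x ∈ T ∧
      ∀ T' ∈ M, T'.IsTransitive → x ∈ T' → T ⊆ T' := by
    intro x
    induction x using ZFSet.inductionOn with
    | h x ih =>
      intro hx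
      obtain ⟨b, hb, H⟩ := exists_repl (M := M) (fun T y => T.IsTransitive ∧ y ∈ T ∧
          ∀ T' ∈ M, T'.IsTransitive → y ∈ T' → T ⊆ T') hx (fun y hy => by
        obtain ⟨T, hT, h1, h2, h3⟩ := ih y hy (mem_of_mem hx hy)
        refine ⟨T, ⟨hT, h1, h2, h3⟩, fun T' hT' => ?_⟩
        exact subset_antisymm (hT'.2.2.2 T hT h1 h2) (h3 T' hT'.1 hT'.2.1 hT'.2.2.1))
      have := InM.mk hx
      have hb' := sep_mem (fun T => T.IsTransitive) hb
      have h0 : (insert x (⋃₀ b.sep (fun T => T.IsTransitive)) : ZFSet.{u}).IsTransitive := by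
        intro y hy z hz
        rcases mem_insert_iff.1 hy with rfl | hy
        · obtain ⟨T, hT, h1, h2, -⟩ := H z hz
          exact mem_insert_of_mem _ (mem_sUnion.2 ⟨T, mem_sep.2 ⟨hT, h1⟩, h2⟩)
        · obtain ⟨T, hT, h1⟩ := mem_sUnion.1 hy
          exact mem_insert_of_mem _ (mem_sUnion.2 ⟨T, hT, (mem_sep.1 hT).2 y h1 hz⟩)
      have h1 := insert_mem hx (sUnion_mem hb')
      refine ⟨_, sep_mem (fun z => ∀ T' ∈ M, T'.IsTransitive → x ∈ T' → z ∈ T') h1, ?_, ?_, ?_⟩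
      · intro y hy z hz
        rw [mem_sep] at hy ⊢
        exact ⟨h0 y hy.1 hz, fun T' hT' h2 h3 => h2 y (hy.2 T' hT' h2 h3) hz⟩
      · exact mem_sep.2 ⟨mem_insert _ _, fun _ _ _ h => h⟩
      · intro T' hT' h2 h3 z hz
        exact (mem_sep.1 hz).2 T' hT' h2 h3
  obtain ⟨T, hT, h1, h2, -⟩ := key x hx
  exact ⟨T, hT, h1, h2⟩

theorem exists_trans2 {x y : ZFSet.{u}} (hx : x ∈ M) (hy : y ∈ M) :
    ∃ T ∈ M, T.IsTransitive ∧ x ∈ T ∧ y ∈ T := by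
  obtain ⟨T, hT, h1, h2⟩ := exists_trans (upair_mem hx hy)
  exact ⟨T, hT, h1, h1 _ h2 (mem_pair.2 (Or.inl rfl)), h1 _ h2 (mem_pair.2 (Or.inr rfl))⟩

/-- The recursion theorem: a function given by a definable recursion along a definable
well-founded relation maps `M` to `M` and is definable. -/
theorem recursion (r : ZFSet.{u} → ZFSet.{u} → Prop) (hr : WellFounded r)
    [hrd : Df M (fun e => r (e 0) (e 1))]
    (hT : ∀ x ∈ M, ∃ T ∈ M, x ∈ T ∧ ∀ y ∈ T, ∀ z, r z y → z ∈ T)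
    (F : ZFSet.{u} → ZFSet.{u}) (Φ : ZFSet.{u} → ZFSet.{u} → ZFSet.{u} → Prop)
    [hΦ : Df M (fun e => Φ (e 0) (e 1) (e 2))]
    (H : ∀ x ∈ M, ∀ f ∈ M, (∀ y, r y x → ∀ z, pair y z ∈ f ↔ z = F y) →
      F x ∈ M ∧ ∀ z ∈ M, (Φ x f z ↔ z = F x)) :
    Tm M (fun e => F (e 0)) := by
  have hr' : ∀ (s t : Env.{u} → ZFSet.{u}) [Tm M s] [Tm M t], Df M (fun e => r (s e) (t e)) :=
    fun s t _ _ => Df.subst2 hrd s t
  have hΦ' : ∀ (s t w : Env.{u} → ZFSet.{u}) [Tm M s] [Tm M t] [Tm M w],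
      Df M (fun e => Φ (s e) (t e) (w e)) := fun s t w _ _ _ => Df.subst3 hΦ s t w
  have hrM : ∀ y ∈ M, ∀ z, r z y → z ∈ M := by
    intro y hy z hz
    obtain ⟨T, hT, h1, h2⟩ := hT y hy
    exact mem_of_mem hT (h2 y h1 z hz)
  let G : ZFSet.{u} → ZFSet.{u} → Prop := fun T f => (∀ y ∈ T, ∀ w ∈ M, r w y → w ∈ T) ∧
    ∀ y ∈ T, ∃ w ∈ M, Φ y f w ∧ pair y w ∈ f ∧ ∀ w', pair y w' ∈ f → w' = w
  let ψ : ZFSet.{u} → ZFSet.{u} → Prop := fun z x => ∃ T ∈ M, ∃ f ∈ M, G T f ∧ x ∈ T ∧ pair x z ∈ f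
  have hψ : ∀ (s t : Env.{u} → ZFSet.{u}) [Tm M s] [Tm M t], Df M (fun e => ψ (s e) (t e)) :=
    fun s t _ _ => Df.subst2 (R := ψ) (by dsimp only [ψ, G]; infer_instance) s t
  have sound : ∀ T ∈ M, ∀ f ∈ M, G T f → ∀ y ∈ T, ∀ z, pair y z ∈ f ↔ z = F y := by
    intro T hT f hf hG y
    induction y using hr.induction with
    | h y ih =>
      intro hy z
      have hyM := mem_of_mem hT hy
      obtain ⟨w, hw, h1, h2, h3⟩ := hG.2 y hy
      obtain rfl := ((H y hyM f hf fun y' hy' =>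
        ih y' hy' (hG.1 y hy y' (hrM y hyM y' hy') hy')).2 w hw).1 h1
      exact ⟨h3 z, fun h => h ▸ h2⟩
  have sound' : ∀ x z, ψ z x → z = F x := by
    rintro x z ⟨T, hT, f, hf, hG, h1, h2⟩
    exact (sound T hT f hf hG x h1 z).1 h2
  have ex : ∀ x, x ∈ M → F x ∈ M ∧ ψ (F x) x := by
    intro x
    induction x using hr.induction with
    | h x ih =>
      intro hx
      obtain ⟨T, hTM, hxT, hTc⟩ := hT x hx
      have hT0 := sep_mem (fun y => ∃ z ∈ M, ψ z y) hTM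
      set T0 := T.sep (fun y => ∃ z ∈ M, ψ z y)
      have h0 : ∀ y ∈ T0, F y ∈ M ∧ ψ (F y) y := by
        intro y hy
        obtain ⟨z, hz, h⟩ := (mem_sep.1 hy).2
        obtain rfl := sound' _ _ h
        exact ⟨hz, h⟩
      have hc : ∀ y ∈ T0, ∀ w, r w y → w ∈ T0 := by
        intro y hy w hw
        obtain ⟨T', hT', f, hf, hG, h1, -⟩ := (h0 y hy).2
        have hw' := hG.1 y h1 w (hrM y (mem_of_mem hT' h1) w hw) hw
        obtain ⟨v, hv, -, h2, -⟩ := hG.2 w hw'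
        exact mem_sep.2 ⟨hTc y (mem_sep.1 hy).1 w hw, v, hv, T', hT', f, hf, hG, hw', h2⟩
      have hx0 : ∀ y, r y x → y ∈ T0 := fun y hy =>
        mem_sep.2 ⟨hTc x hxT y hy, _, ih y hy (hrM x hx y hy)⟩
      obtain ⟨f0, hf0, Hf0⟩ := exists_image (fun y => pair y (F y))
        (fun w y => ∃ z ∈ M, ψ z y ∧ w = pair y z) hT0
        (fun y hy => pair_mem (mem_of_mem hT0 hy) (h0 y hy).1) (by
          intro y hy w _
          constructor
          · rintro ⟨z, -, h1, rfl⟩; rw [sound' _ _ h1]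
          · rintro rfl; exact ⟨_, (h0 y hy).1, (h0 y hy).2, rfl⟩)
      have hFx : F x ∈ M := (H x hx f0 hf0 (fun y hy z => by
        rw [Hf0]
        constructor
        · rintro ⟨y', -, h⟩
          obtain ⟨rfl, rfl⟩ := pair_inj.1 h; rfl
        · rintro rfl; exact ⟨y, hx0 y hy, rfl⟩)).1
      have hf := insert_mem (pair_mem hx hFx) hf0
      have Hf : ∀ y ∈ (insert x T0 : ZFSet.{u}), ∀ z,
          pair y z ∈ (insert (pair x (F x)) f0 : ZFSet.{u}) ↔ z = F y := by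
        intro y hy z
        rw [mem_insert_iff, Hf0]
        constructor
        · rintro (h | ⟨y', -, h⟩)
          · obtain ⟨rfl, rfl⟩ := pair_inj.1 h; rfl
          · obtain ⟨rfl, rfl⟩ := pair_inj.1 h; rfl
        · rintro rfl
          rcases mem_insert_iff.1 hy with rfl | hy
          · exact Or.inl rfl
          · exact Or.inr ⟨y, hy, rfl⟩
      have hc' : ∀ y ∈ (insert x T0 : ZFSet.{u}), ∀ w, r w y → w ∈ (insert x T0 : ZFSet.{u}) := by
        intro y hy w hw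
        rcases mem_insert_iff.1 hy with rfl | hy
        · exact mem_insert_of_mem _ (hx0 w hw)
        · exact mem_insert_of_mem _ (hc y hy w hw)
      refine ⟨hFx, _, insert_mem hx hT0, _, hf, ⟨fun y hy w _ hw => hc' y hy w hw, ?_⟩,
        mem_insert _ _, mem_insert _ _⟩
      intro y hy
      have hyM := mem_of_mem (insert_mem hx hT0) hy
      obtain ⟨h1, h2⟩ := H y hyM _ hf (fun y' hy' => Hf y' (hc' y hy y' hy'))
      exact ⟨F y, h1, (h2 _ h1).2 rfl, (Hf y hy _).2 rfl, fun w' hw' => (Hf y hy _).1 hw'⟩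
  refine ⟨fun e he => (ex _ (he 0)).1, (hψ (fun e => e 0) (fun e => e 1)).congr fun e he => ?_⟩
  exact ⟨sound' _ _, fun h => h ▸ (ex _ (he 1)).2⟩

theorem mem_recursion (F : ZFSet.{u} → ZFSet.{u}) (Φ : ZFSet.{u} → ZFSet.{u} → ZFSet.{u} → Prop)
    [hΦ : Df M (fun e => Φ (e 0) (e 1) (e 2))]
    (H : ∀ x ∈ M, ∀ f ∈ M, (∀ y ∈ x, ∀ z, pair y z ∈ f ↔ z = F y) →
      F x ∈ M ∧ ∀ z ∈ M, (Φ x f z ↔ z = F x)) :
    Tm M (fun e => F (e 0)) :=
  recursion (· ∈ ·) mem_wf (fun x hx => by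
    obtain ⟨T, hT, h1, h2⟩ := exists_trans hx
    exact ⟨T, hT, h2, fun y hy z hz => h1 y hy hz⟩) F Φ H

theorem Tm.apply1 {F : ZFSet.{u} → ZFSet.{u}} (h : Tm M (fun e => F (e 0)))
    (s : Env.{u} → ZFSet.{u}) [Tm M s] : Tm M (fun e => F (s e)) :=
  Tm.comp1 (fun x hx => h.mem (fun _ => x) fun _ => hx) h.df s

omit hM in
theorem Tm.mem1 {F : ZFSet.{u} → ZFSet.{u}} (h : Tm M (fun e => F (e 0))) {x : ZFSet.{u}}
    (hx : x ∈ M) : F x ∈ M := h.mem (fun _ => x) fun _ => hx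

/-- The rank of a set, as a von Neumann ordinal. -/
noncomputable def rk (x : ZFSet.{u}) : ZFSet.{u} := x.rank.toZFSet

theorem mem_rk {x z : ZFSet.{u}} : z ∈ rk x ↔ ∃ y ∈ x, z ∈ insert (rk y) (rk y) := by
  unfold rk
  rw [Ordinal.mem_toZFSet_iff]
  constructor
  · rintro ⟨a, ha, rfl⟩
    obtain ⟨y, hy, h⟩ := lt_rank_iff.1 ha
    refine ⟨y, hy, ?_⟩
    rw [← Ordinal.toZFSet_add_one, Ordinal.toZFSet_mem_toZFSet_iff]
    exact Order.lt_add_one_iff.2 h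
  · rintro ⟨y, hy, h⟩
    rw [← Ordinal.toZFSet_add_one, Ordinal.mem_toZFSet_iff] at h
    obtain ⟨a, ha, rfl⟩ := h
    exact ⟨a, lt_rank_iff.2 ⟨y, hy, Order.lt_add_one_iff.1 ha⟩, rfl⟩

theorem tm_rk : Tm M (fun e => rk (e 0)) := by
  refine mem_recursion rk (fun x f z => (∀ w ∈ z, ∃ y ∈ x, ∃ v, pair y v ∈ f ∧ w ∈ insert v v) ∧
    ∀ y ∈ x, ∀ v, pair y v ∈ f → insert v v ⊆ z) ?_
  intro x hx f hf H
  have := InM.mk hf
  constructor
  · obtain ⟨b, hb, Hb⟩ := exists_image (fun y => (insert (rk y) (rk y) : ZFSet.{u}))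
      (fun w y => ∃ v, pair y v ∈ f ∧ w = insert v v) hx
      (fun y hy => by
        have := snd_mem hf ((H y hy _).2 rfl)
        exact insert_mem this this)
      (fun y hy w _ => ⟨fun ⟨v, h1, h2⟩ => by rw [h2, (H y hy v).1 h1],
        fun h => ⟨_, (H y hy _).2 rfl, h⟩⟩)
    convert sUnion_mem hb using 1
    ext z
    rw [mem_rk, mem_sUnion]
    constructor
    · rintro ⟨y, hy, h⟩; exact ⟨_, (Hb _).2 ⟨y, hy, rfl⟩, h⟩
    · rintro ⟨w, hw, h⟩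
      obtain ⟨y, hy, rfl⟩ := (Hb _).1 hw
      exact ⟨y, hy, h⟩
  · intro z _
    constructor
    · rintro ⟨h1, h2⟩
      ext w
      rw [mem_rk]
      constructor
      · intro hw
        obtain ⟨y, hy, v, h3, h4⟩ := h1 w hw
        exact ⟨y, hy, (H y hy v).1 h3 ▸ h4⟩
      · rintro ⟨y, hy, h⟩
        exact h2 y hy _ ((H y hy _).2 rfl) h
    · rintro rfl
      refine ⟨fun w hw => ?_, fun y hy v hv w hw => mem_rk.2 ⟨y, hy, (H y hy v).1 hv ▸ hw⟩⟩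
      obtain ⟨y, hy, h⟩ := mem_rk.1 hw
      exact ⟨y, hy, _, (H y hy _).2 rfl, h⟩

instance Tm.rk {s : Env.{u} → ZFSet.{u}} [Tm M s] : Tm M (fun e => rk (s e)) := tm_rk.apply1 s

theorem rk_mem {x : ZFSet.{u}} (hx : x ∈ M) : rk x ∈ M := tm_rk.mem1 hx

/-- With Power Set, the sets in `M` of rank at most a given ordinal form a set in `M`. -/
theorem exists_rank_le (hpow : ∀ x ∈ M, ∃ y ∈ M, ∀ z ∈ M, z ⊆ x → z ∈ y) (a : ZFSet.{u}) :
    a ∈ M → a.IsOrdinal → ∃ W ∈ M, ∀ x ∈ M, (x ∈ W ↔ rk x ⊆ a) := by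
  induction a using ZFSet.inductionOn with
  | h a ih =>
    intro ha ho
    obtain ⟨b, hb, H⟩ := exists_repl (M := M) (fun W c => ∀ x ∈ M, (x ∈ W ↔ rk x ⊆ c)) ha
      (fun c hc => by
        obtain ⟨W, hW, h⟩ := ih c hc (mem_of_mem ha hc) (ho.mem hc)
        refine ⟨W, ⟨hW, h⟩, fun W' hW' => ?_⟩
        ext x
        exact ⟨fun hx => (h x (mem_of_mem hW'.1 hx)).2 ((hW'.2 x (mem_of_mem hW'.1 hx)).1 hx),
          fun hx => (hW'.2 x (mem_of_mem hW hx)).2 ((h x (mem_of_mem hW hx)).1 hx)⟩)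
    obtain ⟨y, hy, Hy⟩ := hpow _ (sUnion_mem hb)
    have := InM.mk ha
    refine ⟨_, sep_mem (fun x => rk x ⊆ a) hy, fun x hx => ?_⟩
    rw [mem_sep]
    refine ⟨fun h => h.2, fun h => ⟨Hy x hx fun z hz => ?_, h⟩⟩
    obtain ⟨W, hW, h1⟩ := H (rk z) (h (mem_rk.2 ⟨z, hz, mem_insert _ _⟩))
    exact mem_sUnion.2 ⟨W, hW, (h1 z (mem_of_mem hx hz)).2 subset_rfl⟩

theorem isOrdinal_rk (x : ZFSet.{u}) : (rk x).IsOrdinal := isOrdinal_toZFSet _

/-- Collection. -/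
theorem collection (hpow : ∀ x ∈ M, ∃ y ∈ M, ∀ z ∈ M, z ⊆ x → z ∈ y)
    (R : ZFSet.{u} → ZFSet.{u} → Prop) [h : Df M (fun e => R (e 0) (e 1))]
    {a : ZFSet.{u}} (ha : a ∈ M) :
    ∃ b ∈ M, ∀ x ∈ a, (∃ y ∈ M, R y x) → ∃ y ∈ b, R y x := by
  have hR : ∀ (s t : Env.{u} → ZFSet.{u}) [Tm M s] [Tm M t], Df M (fun e => R (s e) (t e)) :=
    fun s t _ _ => Df.subst2 h s t
  have ha' := sep_mem (fun x => ∃ y ∈ M, R y x) ha
  obtain ⟨b, hb, H⟩ := exists_repl (M := M)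
    (fun c x => (∃ y ∈ M, R y x ∧ rk y = c) ∧ ∀ y ∈ M, R y x → c ⊆ rk y) ha' (fun x hx => by
      obtain ⟨y, hy, hmin⟩ := (InvImage.wf rank Ordinal.lt_wf).has_min {y | y ∈ M ∧ R y x}
        (mem_sep.1 hx).2
      have hmin' : ∀ y' ∈ M, R y' x → rk y ⊆ rk y' := fun y' h1 h2 =>
        Ordinal.toZFSet_subset_toZFSet_iff.2 (not_lt.1 (hmin y' ⟨h1, h2⟩))
      refine ⟨rk y, ⟨rk_mem hy.1, ⟨y, hy.1, hy.2, rfl⟩, hmin'⟩, ?_⟩
      rintro c ⟨-, ⟨y', h1, h2, rfl⟩, h3⟩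
      exact subset_antisymm (h3 y hy.1 hy.2) (hmin' y' h1 h2))
  obtain ⟨W, hW, HW⟩ := exists_rank_le hpow (rk b) (rk_mem hb) (isOrdinal_rk b)
  refine ⟨W, hW, fun x hx hex => ?_⟩
  obtain ⟨c, hc, ⟨y, h1, h2, rfl⟩, -⟩ := H x (mem_sep.2 ⟨hx, hex⟩)
  refine ⟨y, (HW y h1).2 ?_, h2⟩
  have := rank_lt_of_mem hc
  rw [rk, Ordinal.rank_toZFSet] at this
  exact Ordinal.toZFSet_subset_toZFSet_iff.2 this.le

end

end Pool.Agent.Lib.Forcing
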